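import Mathlib

/-!
Cluster algebras of geometric type over the integers (coefficient variables not inverted),
with index types `ι` for the mutable and `κ` for the coefficient variables.
-/

namespace Pool.Agent.Y945.SP

/-- A labelled seed of geometric type in a field `F`: the extended cluster `x` and the extended
exchange matrix `B`. -/
structure Seed (ι κ F : Type) where
  x : ι ⊕ κ → F
  B : Matrix (ι ⊕ κ) ι ℤ

variable {ι κ : Type} [Fintype ι] [Fintype κ] [DecidableEq ι] [DecidableEq κ]

/-- Fomin–Zelevinsky mutation in direction `k`. -/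
noncomputable def Seed.mutate {F : Type} [Field F] (s : Seed ι κ F) (k : ι) : Seed ι κ F where
  x := Function.update s.x (Sum.inl k)
    ((∏ i, s.x i ^ (s.B i k).toNat + ∏ i, s.x i ^ (-s.B i k).toNat) / s.x (Sum.inl k))
  B := fun i j => if i = Sum.inl k ∨ j = k then -s.B i j
    else s.B i j + (max (s.B i k) 0 * max (s.B (Sum.inl k) j) 0
      - max (-s.B i k) 0 * max (-s.B (Sum.inl k) j) 0)

/-- Seeds obtained by iterated mutation. -/
inductive Reach {F : Type} [Field F] (s₀ : Seed ι κ F) : Seed ι κ F → Prop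
  | refl : Reach s₀ s₀
  | step (s : Seed ι κ F) (k : ι) : Reach s₀ s → Reach s₀ (s.mutate k)

/-- The ambient field of rational functions over `ℚ`. -/
abbrev Amb (ι κ : Type) : Type := FractionRing (MvPolynomial (ι ⊕ κ) ℚ)

/-- The initial seed with extended exchange matrix `B`. -/
noncomputable def initialSeed (B : Matrix (ι ⊕ κ) ι ℤ) : Seed ι κ (Amb ι κ) where
  x := fun i => algebraMap (MvPolynomial (ι ⊕ κ) ℚ) (Amb ι κ) (MvPolynomial.X i)
  B := B

/-- The top square block is skew-symmetrizable. -/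
def SkewSymmetrizable (B : Matrix (ι ⊕ κ) ι ℤ) : Prop :=
  ∃ d : ι → ℕ, (∀ i, 0 < d i) ∧
    ∀ i j, (d i : ℤ) * B (Sum.inl i) j = -((d j : ℤ) * B (Sum.inl j) i)

/-- The `j`-th coefficient variable. -/
noncomputable def coeffVar (j : κ) : Amb ι κ :=
  algebraMap (MvPolynomial (ι ⊕ κ) ℚ) (Amb ι κ) (MvPolynomial.X (Sum.inr j))

/-- The set of cluster variables. -/
def clusterVars (B : Matrix (ι ⊕ κ) ι ℤ) : Set (Amb ι κ) :=
  {y | ∃ s, Reach (initialSeed B) s ∧ ∃ k : ι, y = s.x (Sum.inl k)}

/-- The cluster algebra: the subring generated by all cluster and coefficient variables. -/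
noncomputable def clusterAlgebra (B : Matrix (ι ⊕ κ) ι ℤ) : Subring (Amb ι κ) :=
  Subring.closure (clusterVars B ∪ Set.range coeffVar)

/-- Cluster monomials: monomials in the elements of one extended cluster. -/
def clusterMonomials (B : Matrix (ι ⊕ κ) ι ℤ) : Set (Amb ι κ) :=
  {y | ∃ s, Reach (initialSeed B) s ∧ ∃ e : ι ⊕ κ → ℕ, y = ∏ i, s.x i ^ e i}

/-- `C` is a basis of the cluster algebra as a `ℤ`-module. -/
structure IsZBasis (B : Matrix (ι ⊕ κ) ι ℤ) (C : Set (Amb ι κ)) : Prop where
  linearIndependent : LinearIndependent ℤ ((↑) : C → Amb ι κ)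
  span_iff : ∀ y, y ∈ Submodule.span ℤ C ↔ y ∈ clusterAlgebra B

/-- All structure constants of the basis `C` are nonnegative. -/
def NonnegStructure (C : Set (Amb ι κ)) : Prop :=
  ∀ b ∈ C, ∀ b' ∈ C, ∃ γ : C →₀ ℤ, (∀ c, 0 ≤ γ c) ∧
    b * b' = γ.sum fun c k => k • (c : Amb ι κ)

end Pool.Agent.Y945.SP
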