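import Pool.Agent.Y945.SP.Rank3
import Pool.Agent.Y945.SP.Defs

set_option linter.unusedSectionVars false
set_option linter.unusedSimpArgs false

namespace Pool.Agent.Y945.SP

variable {F : Type} [Field F]

/-- a block of a seed -/
def blk (s : Seed (Fin 3 × Fin 3) (Fin 2) F) (l : Fin 3) : CB.Seed 3 2 F where
  x := Sum.elim (fun i => s.x (Sum.inl (l, i))) (fun a => s.x (Sum.inr a))
  B := Matrix.of (Sum.elim (fun i j => s.B (Sum.inl (l, i)) (l, j)) (fun a j => s.B (Sum.inr a) (l, j)))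

/-- the exchange matrix is block diagonal -/
def IsBlock (s : Seed (Fin 3 × Fin 3) (Fin 2) F) : Prop :=
  ∀ l l' i j, l ≠ l' → s.B (Sum.inl (l, i)) (l', j) = 0

variable {s : Seed (Fin 3 × Fin 3) (Fin 2) F}

theorem IsBlock.mutate (hs : IsBlock s) (l k : Fin 3) : IsBlock (s.mutate (l, k)) := by
  intro l1 l2 i j h
  simp only [Seed.mutate]
  split_ifs with h1
  · rw [hs l1 l2 i j h, neg_zero]
  · rw [hs l1 l2 i j h]
    by_cases h2 : l1 = l
    · have h3 : l ≠ l2 := by rintro rfl; exact h h2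
      rw [hs l l2 k j h3]; simp
    · rw [hs l1 l i k h2]; simp

theorem prod_blk (hs : IsBlock s) (l k : Fin 3) (g : ℤ → ℕ) (hg : g 0 = 0) :
    ∏ i, s.x i ^ g (s.B i (l, k)) = ∏ i, (blk s l).x i ^ g ((blk s l).B i k) := by
  rw [Fintype.prod_sum_type, Fintype.prod_sum_type, Fintype.prod_prod_type]
  congr 1
  rw [Finset.prod_eq_single l]
  · rfl
  · intro l' _ hl'
    refine Finset.prod_eq_one fun i _ => ?_
    rw [hs l' l i k hl', hg, pow_zero]
  · simp

theorem blk_mutate_same (hs : IsBlock s) (l k : Fin 3) :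
    blk (s.mutate (l, k)) l = (blk s l).mutate k := by
  have hx : (blk (s.mutate (l, k)) l).x = ((blk s l).mutate k).x := by
    funext i
    rcases i with i | a
    · by_cases hi : i = k
      · subst hi
        simp only [blk, Seed.mutate, CB.Seed.mutate, Sum.elim_inl, Function.update_self]
        have h1 := prod_blk hs l i (fun z => z.toNat) rfl
        have h2 := prod_blk hs l i (fun z => (-z).toNat) rfl
        rw [h1, h2]
        rfl
      · have h1 : (Sum.inl (l, i) : (Fin 3 × Fin 3) ⊕ Fin 2) ≠ Sum.inl (l, k) := by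
          simpa using hi
        have h2 : (Sum.inl i : Fin 3 ⊕ Fin 2) ≠ Sum.inl k := by simpa using hi
        simp only [blk, Seed.mutate, CB.Seed.mutate, Sum.elim_inl, Function.update_of_ne h1,
          Function.update_of_ne h2]
    · have h1 : (Sum.inr a : (Fin 3 × Fin 3) ⊕ Fin 2) ≠ Sum.inl (l, k) := by simp
      have h2 : (Sum.inr a : Fin 3 ⊕ Fin 2) ≠ Sum.inl k := by simp
      simp only [blk, Seed.mutate, CB.Seed.mutate, Sum.elim_inr, Function.update_of_ne h1,
          Function.update_of_ne h2]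
  have hB : (blk (s.mutate (l, k)) l).B = ((blk s l).mutate k).B := by
    funext i j
    have ej : ((l, j) : Fin 3 × Fin 3) = (l, k) ↔ j = k := by simp
    rcases i with i | a
    · have e1 : (Sum.inl (l, i) : (Fin 3 × Fin 3) ⊕ Fin 2) = Sum.inl (l, k) ↔
          (Sum.inl i : Fin 3 ⊕ Fin 2) = Sum.inl k := by simp
      change (s.mutate (l, k)).B (Sum.inl (l, i)) (l, j) = ((blk s l).mutate k).B (Sum.inl i) j
      simp only [Seed.mutate, CB.Seed.mutate, e1, ej]
      rfl
    · have e1 : (Sum.inr a : (Fin 3 × Fin 3) ⊕ Fin 2) = Sum.inl (l, k) ↔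
          (Sum.inr a : Fin 3 ⊕ Fin 2) = Sum.inl k := by simp
      change (s.mutate (l, k)).B (Sum.inr a) (l, j) = ((blk s l).mutate k).B (Sum.inr a) j
      simp only [Seed.mutate, CB.Seed.mutate, e1, ej]
      rfl
  cases h : blk (s.mutate (l, k)) l
  cases h' : (blk s l).mutate k
  rw [h, h'] at hx hB
  simp only at hx hB
  rw [hx, hB]

theorem blk_mutate_ne (hs : IsBlock s) (l k l' : Fin 3) (hl : l' ≠ l) :
    blk (s.mutate (l, k)) l' = blk s l' := by
  have hx : (blk (s.mutate (l, k)) l').x = (blk s l').x := by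
    funext i
    rcases i with i | a
    · have h1 : (Sum.inl (l', i) : (Fin 3 × Fin 3) ⊕ Fin 2) ≠ Sum.inl (l, k) := by
        simp [hl]
      simp only [blk, Seed.mutate, Sum.elim_inl, Function.update_of_ne h1]
    · have h1 : (Sum.inr a : (Fin 3 × Fin 3) ⊕ Fin 2) ≠ Sum.inl (l, k) := by simp
      simp only [blk, Seed.mutate, Sum.elim_inr, Function.update_of_ne h1]
  have hB : (blk (s.mutate (l, k)) l').B = (blk s l').B := by
    funext i j
    have ej : ¬ ((l', j) : Fin 3 × Fin 3) = (l, k) := by simp [hl]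
    rcases i with i | a
    · have e1 : ¬ (Sum.inl (l', i) : (Fin 3 × Fin 3) ⊕ Fin 2) = Sum.inl (l, k) := by simp [hl]
      change (s.mutate (l, k)).B (Sum.inl (l', i)) (l', j) = s.B (Sum.inl (l', i)) (l', j)
      simp only [Seed.mutate, e1, ej, or_self, if_false, hs l' l i k hl]
      simp
    · have e1 : ¬ (Sum.inr a : (Fin 3 × Fin 3) ⊕ Fin 2) = Sum.inl (l, k) := by simp
      change (s.mutate (l, k)).B (Sum.inr a) (l', j) = s.B (Sum.inr a) (l', j)
      simp only [Seed.mutate, e1, ej, or_self, if_false, hs l l' k j hl.symm]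
      simp
  cases h : blk (s.mutate (l, k)) l'
  cases h' : blk s l'
  rw [h, h'] at hx hB
  simp only at hx hB
  rw [hx, hB]

theorem reach_blk {s₀ : Seed (Fin 3 × Fin 3) (Fin 2) F} (h0 : IsBlock s₀) (hs : Reach s₀ s) :
    IsBlock s ∧ ∀ l, CB.Reach (blk s₀ l) (blk s l) := by
  induction hs with
  | refl => exact ⟨h0, fun l => .refl⟩
  | step s k _ ih =>
    obtain ⟨l, k⟩ := k
    refine ⟨ih.1.mutate l k, fun l' => ?_⟩
    by_cases hl : l' = l
    · subst hl
      rw [blk_mutate_same ih.1]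
      exact .step _ _ (ih.2 l')
    · rw [blk_mutate_ne ih.1 l k l' hl]
      exact ih.2 l'

theorem reach_lift {s₀ : Seed (Fin 3 × Fin 3) (Fin 2) F} (h0 : IsBlock s₀) (l : Fin 3)
    {s' : CB.Seed 3 2 F} (hs : CB.Reach (blk s₀ l) s') : ∃ s, Reach s₀ s ∧ blk s l = s' := by
  induction hs with
  | refl => exact ⟨s₀, .refl, rfl⟩
  | step s' k _ ih =>
    obtain ⟨s, hs, rfl⟩ := ih
    exact ⟨_, .step s (l, k) hs, blk_mutate_same (reach_blk h0 hs).1 l k⟩

open Pool.Agent.Y945.CB (HS PosCone CC P0 H0 Rel Gr)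

/-- invariants of the reachable rank three seeds -/
theorem reach_inv {a b t : F} {pos : F → Prop} (hp : PosCone pos) (ha : pos a) (hb : pos b)
    (ht : pos t) {c : Fin 2 → F} (hx : pos (c 0)) (hy : pos (c 1)) {f : F →+* F} {l : F}
    (hl : l ≠ 0) {s₀ s : CB.Seed 3 2 F} (hs : CB.Reach s₀ s)
    (R : Rel c s₀ (H0 a b t (c 0) (c 1))) (G : Gr f l (H0 a b t (c 0) (c 1))) :
    ∃ h, Rel c s h ∧ Inv pos Bg0 (CC a b t (c 0) (c 1)) (P0 a b t (c 0) (c 1)) h ∧ Gr f l h := by
  have hc : ∀ a, c a ≠ 0 := by intro a; fin_cases a; exacts [hp.ne hx, hp.ne hy]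
  have hB := base0 hp ha hb ht hx hy
  induction hs with
  | refl => exact ⟨_, R, H0_inv hp ha hb ht hx hy, G⟩
  | step s k _ ih =>
    obtain ⟨h, R, I, G⟩ := ih
    have hd := I.diag up0 hB
    exact ⟨h.mut k, R.mut hc hd k, I.mut hp up0 hB k, G.mut hl hd k⟩

end Pool.Agent.Y945.SP
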