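import Pool.Agent.Y945.SP.Laurent

set_option linter.unusedSectionVars false
set_option linter.unusedSimpArgs false

namespace Pool.Agent.Y945.SP

attribute [-instance] DivisionRing.toRatAlgebra

open MvPolynomial
open AddMonoidAlgebra (single single_mul_single single_pow)

/-! ### formulas for the core variables in a ring with inverses -/

/-- the core variables, with `a'`, `b'`, `t'` the inverses of `a`, `b`, `t` -/
def EG {R : Type} [CommSemiring R] (a b t a' b' t' x y : R) : Fin 9 → R :=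
  ![a, b, t,
  (x * y ^ 3 * a + t ^ 3 + x ^ 3 * y * b) * (a' * b'),
  (t ^ 3 + a * x * y ^ 3) * b',
  (b * x ^ 3 * y + t ^ 3) * a',
  (((t ^ 3 + a * x * y ^ 3) * b') ^ 2 + x ^ 6 * y ^ 2) * t',
  (((b * x ^ 3 * y + t ^ 3) * a') ^ 2 + x ^ 2 * y ^ 6) * t',
  (y ^ 4 * a ^ 2 + x ^ 4 * b ^ 2) * t']

theorem EG_map {R S : Type} [CommSemiring R] [CommSemiring S] (f : R →+* S)
    (a b t a' b' t' x y : R) (i : Fin 9) :
    f (EG a b t a' b' t' x y i) = EG (f a) (f b) (f t) (f a') (f b') (f t') (f x) (f y) i := by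
  fin_cases i <;> simp [EG]

theorem EG_field {F : Type} [Field F] (a b t x y : F) (i : Fin 9) :
    EG a b t a⁻¹ b⁻¹ t⁻¹ x y i = CB.E a b t x y i := by
  fin_cases i <;> simp [EG, CB.E, div_eq_mul_inv, mul_comm]

theorem EG_mem {R : Type} [CommSemiring R] (N : Subsemiring R) {a b t a' b' t' x y : R}
    (ha : a ∈ N) (hb : b ∈ N) (ht : t ∈ N) (ha' : a' ∈ N) (hb' : b' ∈ N) (ht' : t' ∈ N)
    (hx : x ∈ N) (hy : y ∈ N) (i : Fin 9) : EG a b t a' b' t' x y i ∈ N := by
  have h1 : t ^ 3 + a * x * y ^ 3 ∈ N := add_mem (pow_mem ht 3) (mul_mem (mul_mem ha hx) (pow_mem hy 3))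
  have h2 : b * x ^ 3 * y + t ^ 3 ∈ N := add_mem (mul_mem (mul_mem hb (pow_mem hx 3)) hy) (pow_mem ht 3)
  fin_cases i
  · exact ha
  · exact hb
  · exact ht
  · exact mul_mem (add_mem (add_mem (mul_mem (mul_mem hx (pow_mem hy 3)) ha) (pow_mem ht 3))
      (mul_mem (mul_mem (pow_mem hx 3) hy) hb)) (mul_mem ha' hb')
  · exact mul_mem h1 hb'
  · exact mul_mem h2 ha'
  · exact mul_mem (add_mem (pow_mem (mul_mem h1 hb') 2) (mul_mem (pow_mem hx 6) (pow_mem hy 2))) ht'
  · exact mul_mem (add_mem (pow_mem (mul_mem h2 ha') 2) (mul_mem (pow_mem hx 2) (pow_mem hy 6))) ht'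
  · exact mul_mem (add_mem (mul_mem (pow_mem hy 4) (pow_mem ha 2))
      (mul_mem (pow_mem hx 4) (pow_mem hb 2))) ht'

/-- Laurent generators -/
noncomputable def gn (i : Ix) (z : ℤ) : LL := single (Pi.single i z) 1

theorem gn_NN (i : Ix) (z : ℤ) : gn i z ∈ NN := single_NN _

theorem J_gn (i : Ix) (z : ℤ) : J (gn i z) = xk i ^ z := by
  rw [gn, J_single, one_smul, Finset.prod_eq_single i]
  · simp
  · intro j _ hj; simp [Pi.single_eq_of_ne hj]
  · simp

/-- Laurent expansions of the core variables -/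
noncomputable def EL (l : Fin 3) : Fin 9 → LL :=
  EG (gn (Sum.inl (l, 0)) 1) (gn (Sum.inl (l, 1)) 1) (gn (Sum.inl (l, 2)) 1)
    (gn (Sum.inl (l, 0)) (-1)) (gn (Sum.inl (l, 1)) (-1)) (gn (Sum.inl (l, 2)) (-1))
    (gn (Sum.inr 0) 1) (gn (Sum.inr 1) 1)

theorem EL_NN (l : Fin 3) (i : Fin 9) : EL l i ∈ NN :=
  EG_mem NN (gn_NN _ _) (gn_NN _ _) (gn_NN _ _) (gn_NN _ _) (gn_NN _ _) (gn_NN _ _) (gn_NN _ _)
    (gn_NN _ _) i

theorem J_EL (l : Fin 3) (i : Fin 9) : J (EL l i) = EK l i := by
  have := EG_map (J : LL →+* K) (gn (Sum.inl (l, 0)) 1) (gn (Sum.inl (l, 1)) 1)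
    (gn (Sum.inl (l, 2)) 1) (gn (Sum.inl (l, 0)) (-1)) (gn (Sum.inl (l, 1)) (-1))
    (gn (Sum.inl (l, 2)) (-1)) (gn (Sum.inr 0) 1) (gn (Sum.inr 1) 1) i
  rw [EL]
  refine this.trans ?_
  simp only [RingHom.coe_coe, J_gn, zpow_one, zpow_neg]
  exact EG_field _ _ _ _ _ i

/-! ### the specialization of the coefficient variables to `1` -/

abbrev G0 : Type := ℤ × ℤ × ℤ
abbrev LB : Type := AddMonoidAlgebra ℚ G0
abbrev L3 : Type := AddMonoidAlgebra ℚ (Fin 3 → G0)

/-- restriction of exponents -/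
def rs : GG →+ (Fin 3 → G0) where
  toFun g l := (g (Sum.inl (l, 0)), g (Sum.inl (l, 1)), g (Sum.inl (l, 2)))
  map_zero' := rfl
  map_add' _ _ := rfl

noncomputable def sp : LL →+* L3 := AddMonoidAlgebra.mapDomainRingHom ℚ rs

theorem sp_single (g : GG) (r : ℚ) : sp (single g r) = single (rs g) r := by
  rw [sp]
  exact AddMonoidAlgebra.mapDomain_single

/-- inclusion of a block -/
noncomputable def ib (l : Fin 3) : LB →+* L3 :=
  AddMonoidAlgebra.mapDomainRingHom ℚ (AddMonoidHom.single (fun _ : Fin 3 => G0) l)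

theorem ib_single (l : Fin 3) (g : G0) (r : ℚ) : ib l (single g r) = single (Pi.single l g) r := by
  rw [ib]
  exact AddMonoidAlgebra.mapDomain_single

noncomputable def sg (p : G0) : LB := single p 1
theorem sg_mul (p q : G0) : sg p * sg q = sg (p + q) := by simp [sg, single_mul_single]
theorem sg_one : sg 0 = 1 := by simp [sg, AddMonoidAlgebra.one_def]
theorem sg_pow (p : G0) (n : ℕ) : sg p ^ n = sg (n • p) := by simp [sg, single_pow]
theorem sg_coeff (p g : G0) : (sg p).coeff g = if p = g then 1 else 0 := by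
  rw [sg, AddMonoidAlgebra.coeff_single, Finsupp.single_apply]

/-- the core variables of one block with the coefficients specialized to `1` -/
noncomputable def EB : Fin 9 → LB :=
  EG (sg (1, 0, 0)) (sg (0, 1, 0)) (sg (0, 0, 1)) (sg (-1, 0, 0)) (sg (0, -1, 0)) (sg (0, 0, -1)) 1 1

theorem sp_gn (l : Fin 3) (i : Fin 3) (z : ℤ) :
    sp (gn (Sum.inl (l, i)) z) = ib l (sg (![(z, 0, 0), (0, z, 0), (0, 0, z)] i)) := by
  rw [gn, sp_single, sg, ib_single]
  congr 1
  funext l'
  by_cases h : l' = l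
  · subst h
    fin_cases i <;> simp [rs, Pi.single_apply]
  · simp [rs, Pi.single_apply, h]

theorem sp_ck (j : Fin 2) (z : ℤ) : sp (gn (Sum.inr j) z) = 1 := by
  rw [gn, sp_single, AddMonoidAlgebra.one_def]
  congr 1

theorem sp_EL (l : Fin 3) (i : Fin 9) : sp (EL l i) = ib l (EB i) := by
  rw [EL, EB, EG_map, EG_map]
  simp only [sp_gn, sp_ck, map_one]
  rfl

/-- coefficients of a product of three block elements -/
theorem coeff_prod (f : Fin 3 → LB) (s : Fin 3 → G0) :
    (∏ l, ib l (f l)).coeff s = ∏ l, (f l).coeff (s l) := by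
  classical
  suffices h : ∀ f0 f1 f2 : LB, (ib 0 f0 * ib 1 f1 * ib 2 f2).coeff s =
      f0.coeff (s 0) * f1.coeff (s 1) * f2.coeff (s 2) by
    rw [Fin.prod_univ_three, Fin.prod_univ_three]
    exact h _ _ _
  intro f0 f1 f2
  induction f0 using AddMonoidAlgebra.induction_linear with
  | zero => simp
  | add f g hf hg =>
    rw [map_add, add_mul, add_mul, AddMonoidAlgebra.coeff_add, Finsupp.add_apply, hf, hg,
      AddMonoidAlgebra.coeff_add, Finsupp.add_apply]
    ring
  | single g0 r0 =>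
    induction f1 using AddMonoidAlgebra.induction_linear with
    | zero => simp
    | add f g hf hg =>
      rw [map_add, mul_add, add_mul, AddMonoidAlgebra.coeff_add, Finsupp.add_apply, hf, hg,
        AddMonoidAlgebra.coeff_add, Finsupp.add_apply]
      ring
    | single g1 r1 =>
      induction f2 using AddMonoidAlgebra.induction_linear with
      | zero => simp
      | add f g hf hg =>
        rw [map_add, mul_add, AddMonoidAlgebra.coeff_add, Finsupp.add_apply, hf, hg,
          AddMonoidAlgebra.coeff_add, Finsupp.add_apply]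
        ring
      | single g2 r2 =>
        rw [ib_single, ib_single, ib_single, single_mul_single, single_mul_single]
        simp only [AddMonoidAlgebra.coeff_single, Finsupp.single_apply]
        have e : ((Pi.single 0 g0 + Pi.single 1 g1 + Pi.single 2 g2 : Fin 3 → G0) = s) ↔
            g0 = s 0 ∧ g1 = s 1 ∧ g2 = s 2 := by
          constructor
          · rintro rfl
            simp
          · rintro ⟨rfl, rfl, rfl⟩
            funext l
            fin_cases l <;> simp
        rw [if_congr e rfl rfl]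
        by_cases h0 : g0 = s 0 <;> by_cases h1 : g1 = s 1 <;> by_cases h2 : g2 = s 2 <;>
          simp [h0, h1, h2]

/-! ### the functionals -/

/-- the two exponents -/
def al : G0 := (-1, 2, -1)
def be : G0 := (2, -1, -1)

/-- coefficient functional -/
noncomputable def ps (s : Fin 3 → G0) : LL →+ ℚ where
  toFun f := (sp f).coeff s
  map_zero' := by simp
  map_add' f g := by rw [map_add, AddMonoidAlgebra.coeff_add, Finsupp.add_apply]

theorem NN_add {f : LL} (hf : f ∈ NN) :
    f ∈ AddSubmonoid.closure (Set.range fun g : GG => (single g 1 : LL)) := by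
  induction hf using Subsemiring.closure_induction with
  | mem f hf => exact AddSubmonoid.subset_closure hf
  | zero => exact zero_mem _
  | one => exact AddSubmonoid.subset_closure ⟨0, rfl⟩
  | add f g _ _ h h' => exact add_mem h h'
  | mul f g hf0 hg0 h h' =>
    clear hf0 hg0
    induction h using AddSubmonoid.closure_induction with
    | mem f hf =>
      induction h' using AddSubmonoid.closure_induction with
      | mem g hg =>
        obtain ⟨f, rfl⟩ := hf
        obtain ⟨g, rfl⟩ := hg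
        exact AddSubmonoid.subset_closure ⟨f + g, by
          show (single (f + g) 1 : LL) = single f 1 * single g 1
          rw [single_mul_single, one_mul]⟩
      | zero => rw [mul_zero]; exact zero_mem _
      | add x y _ _ hx hy => rw [mul_add]; exact add_mem hx hy
    | zero => rw [zero_mul]; exact zero_mem _
    | add x y _ _ hx hy => rw [add_mul]; exact add_mem hx hy

theorem ps_nonneg (s : Fin 3 → G0) {f : LL} (hf : f ∈ NN) : 0 ≤ ps s f := by
  classical
  have h := NN_add hf
  clear hf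
  induction h using AddSubmonoid.closure_induction with
  | mem f hf =>
    obtain ⟨g, rfl⟩ := hf
    show 0 ≤ (sp (single g 1)).coeff s
    rw [sp_single, AddMonoidAlgebra.coeff_single, Finsupp.single_apply]
    split_ifs <;> norm_num
  | zero => rw [map_zero]
  | add x y _ _ hx hy => rw [map_add]; exact add_nonneg hx hy

theorem ps_prod {f : LL} {c : Fin 3 → LB} (h : sp f = ∏ l, ib l (c l)) (s : Fin 3 → G0) :
    ps s f = ∏ l, (c l).coeff (s l) := by
  show (sp f).coeff s = _
  rw [h, coeff_prod]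

/-- values of the two block functionals on the core monomials of level at most eight -/
theorem vals {u v : ℤ} {a b t d p q P Q R : ℕ} (h : S8 u v a b t d p q P Q R) :
    ((cm EB a b t d p q P Q R).coeff al = 0 ∧ (cm EB a b t d p q P Q R).coeff be = 0) ∨
    (u = 3 ∧ v = 5 ∧ (cm EB a b t d p q P Q R).coeff al = 1 ∧
      (cm EB a b t d p q P Q R).coeff be = 0) ∨
    (u = 4 ∧ v = 4 ∧ (cm EB a b t d p q P Q R).coeff al = 1 ∧
      (cm EB a b t d p q P Q R).coeff be = 1) ∨
    (u = 5 ∧ v = 3 ∧ (cm EB a b t d p q P Q R).coeff al = 0 ∧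
      (cm EB a b t d p q P Q R).coeff be = 1) := by
  cases h
  case aQ =>
    right; left
    refine ⟨rfl, rfl, ?_, ?_⟩ <;>
    simp [cm, EB, EG, sg_mul, sg_pow, add_mul, mul_add, pow_two, sg_coeff, al, be]
  case dR =>
    right; right; left
    refine ⟨rfl, rfl, ?_, ?_⟩ <;>
    simp [cm, EB, EG, sg_mul, sg_pow, add_mul, mul_add, pow_two, sg_coeff, al, be]
  case bP =>
    right; right; right
    refine ⟨rfl, rfl, ?_, ?_⟩ <;>
    simp [cm, EB, EG, sg_mul, sg_pow, add_mul, mul_add, pow_two, sg_coeff, al, be]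
  all_goals
    left
    constructor <;>
    simp [cm, EB, EG, sg_mul, sg_pow, add_mul, mul_add, pow_two, sg_coeff, al, be]

/-- the test functional -/
noncomputable def tf : LL →+ ℚ :=
  ps ![al, al, be] + ps ![al, be, al] + ps ![be, al, al] -
    ps ![be, be, al] - ps ![be, al, be] - ps ![al, be, be]

/-! ### monomials of the critical degree -/

/-- the eigenvalue of the critical degree -/
noncomputable def lamd : ℚ := lam 12 12 (fun _ => 2)

/-- block data of a factor of a monomial of the critical degree -/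
theorem block_vals {l : Fin 3} {u v : ℤ} {m : K} (h : BD l u v 2 m) (hu : u ≤ 11) (hv : v ≤ 11)
    (h16 : u + v ≤ 16) : ∃ (f : LL) (c : LB), J f = m ∧ sp f = ib l c ∧
      ((c.coeff al = 0 ∧ c.coeff be = 0) ∨
      (u = 3 ∧ v = 5 ∧ c.coeff al = 1 ∧ c.coeff be = 0) ∨
      (u = 4 ∧ v = 4 ∧ c.coeff al = 1 ∧ c.coeff be = 1) ∨
      (u = 5 ∧ v = 3 ∧ c.coeff al = 0 ∧ c.coeff be = 1) ∨ 9 ≤ u + v) := by
  obtain ⟨⟨e, he⟩, h8⟩ := h.eight hu hv h16
  by_cases h9 : 9 ≤ u + v
  · refine ⟨∏ i, EL l i ^ e i, ∏ i, EB i ^ e i, ?_, ?_, ?_⟩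
    · rw [he, map_prod]
      simp only [map_pow, J_EL]
    · rw [map_prod, map_prod]
      simp only [map_pow, sp_EL]
    · right; right; right; right; exact h9
  · obtain ⟨a, b, t, d, p, q, P, Q, R, hs, hm⟩ := h8 (by omega)
    refine ⟨cm (EL l) a b t d p q P Q R, cm EB a b t d p q P Q R, ?_, ?_, ?_⟩
    · rw [hm]
      simp only [cm, map_mul, map_pow, J_EL]
    · simp only [cm, map_mul, map_pow, sp_EL]
    · rcases vals hs with h | h | h | h
      · exact Or.inl h
      · exact Or.inr (Or.inl h)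
      · exact Or.inr (Or.inr (Or.inl h))
      · exact Or.inr (Or.inr (Or.inr (Or.inl h)))

theorem tf_apply {f : LL} {c : Fin 3 → LB} (h : sp f = ∏ l, ib l (c l)) :
    tf f = (c 0).coeff al * (c 1).coeff al * (c 2).coeff be +
      (c 0).coeff al * (c 1).coeff be * (c 2).coeff al +
      (c 0).coeff be * (c 1).coeff al * (c 2).coeff al -
      (c 0).coeff be * (c 1).coeff be * (c 2).coeff al -
      (c 0).coeff be * (c 1).coeff al * (c 2).coeff be -
      (c 0).coeff al * (c 1).coeff be * (c 2).coeff be := by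
  show ps _ f + ps _ f + ps _ f - ps _ f - ps _ f - ps _ f = _
  rw [ps_prod h, ps_prod h, ps_prod h, ps_prod h, ps_prod h, ps_prod h]
  simp [Fin.prod_univ_three]

theorem deg_delta {m : K} (hm : m ∈ MM) (h : Phi m = lamd • m) : ∃ f, J f = m ∧ tf f = 0 := by
  obtain ⟨u, v, k, n, hd⟩ := MM_cases hm
  obtain ⟨h1, h2, h3⟩ := hd.hom.deg hd.ne h
  obtain ⟨b, hb, rfl⟩ := hd
  have hb' : ∀ l, BD l (u l) (v l) 2 (b l) := by
    intro l
    have := hb l
    rwa [h3] at this
  have l0 := (hb' 0).low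
  have l1 := (hb' 1).low
  have l2 := (hb' 2).low
  obtain ⟨f0, c0, j0, s0, v0⟩ := block_vals (hb' 0) (by omega) (by omega) (by omega)
  obtain ⟨f1, c1, j1, s1, v1⟩ := block_vals (hb' 1) (by omega) (by omega) (by omega)
  obtain ⟨f2, c2, j2, s2, v2⟩ := block_vals (hb' 2) (by omega) (by omega) (by omega)
  refine ⟨(f0 * f1 * f2) * (gn (Sum.inr 0) 1 ^ n 0 * gn (Sum.inr 1) 1 ^ n 1), ?_, ?_⟩
  · rw [Fin.prod_univ_three, ← j0, ← j1, ← j2]
    simp only [map_mul, map_pow, J_gn, zpow_one]
    rfl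
  · have hs : sp ((f0 * f1 * f2) * (gn (Sum.inr 0) 1 ^ n 0 * gn (Sum.inr 1) 1 ^ n 1)) =
        ∏ l, ib l (![c0, c1, c2] l) := by
      rw [Fin.prod_univ_three]
      simp only [map_mul, map_pow, sp_ck, s0, s1, s2]
      simp
    rw [tf_apply hs]
    simp only [Matrix.cons_val]
    generalize (c0.coeff al : ℚ) = a0 at *
    generalize (c0.coeff be : ℚ) = b0 at *
    generalize (c1.coeff al : ℚ) = a1 at *
    generalize (c1.coeff be : ℚ) = b1 at *
    generalize (c2.coeff al : ℚ) = a2 at *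
    generalize (c2.coeff be : ℚ) = b2 at *
    by_cases z0 : a0 = 0 ∧ b0 = 0
    · rw [z0.1, z0.2]; ring
    by_cases z1 : a1 = 0 ∧ b1 = 0
    · rw [z1.1, z1.2]; ring
    by_cases z2 : a2 = 0 ∧ b2 = 0
    · rw [z2.1, z2.2]; ring
    rcases v0 with v0 | v0 | v0 | v0 | v0
    · exact absurd v0 z0
    all_goals rcases v1 with v1 | v1 | v1 | v1 | v1
    all_goals first
      | exact absurd v1 z1
      | skip
    all_goals rcases v2 with v2 | v2 | v2 | v2 | v2
    all_goals first
      | exact absurd v2 z2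
      | omega
      | (obtain ⟨-, -, rfl, rfl⟩ := v0
         obtain ⟨-, -, rfl, rfl⟩ := v1
         obtain ⟨-, -, rfl, rfl⟩ := v2
         norm_num)

end Pool.Agent.Y945.SP
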