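import Pool.Agent.Y945.SP.Blocks

set_option linter.unusedSectionVars false
set_option linter.unusedSimpArgs false

namespace Pool.Agent.Y945.SP

attribute [-instance] DivisionRing.toRatAlgebra

open MvPolynomial
open Pool.Agent.Y945.CB (HS PosCone E CC P0 H0 H0_gr E_gr Rel Gr)

abbrev Ix : Type := (Fin 3 × Fin 3) ⊕ Fin 2
abbrev Rg : Type := MvPolynomial Ix ℚ
abbrev K : Type := Amb (Fin 3 × Fin 3) (Fin 2)

/-- the generators of the ambient field -/
noncomputable def xk (i : Ix) : K := algebraMap Rg K (X i)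

/-- ratios of polynomials with positive value at the point `1` -/
def PosK (x : K) : Prop := ∃ g k : Rg, 0 < eval (fun _ => (1 : ℚ)) g ∧
  0 < eval (fun _ => (1 : ℚ)) k ∧ x = algebraMap Rg K g / algebraMap Rg K k

theorem posK_ne {g : Rg} (hr : 0 < eval (fun _ => (1 : ℚ)) g) : algebraMap Rg K g ≠ 0 := by
  intro h0
  have : g = 0 := by
    apply IsFractionRing.injective Rg K
    rw [h0, map_zero]
  rw [this, map_zero] at hr
  exact lt_irrefl _ hr

theorem posCone : PosCone PosK where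
  one := ⟨1, 1, by simp, by simp, by simp⟩
  add := by
    rintro _ _ ⟨g, k, hg, hk, rfl⟩ ⟨g', k', hg', hk', rfl⟩
    refine ⟨g * k' + k * g', k * k', ?_, ?_, ?_⟩
    · rw [map_add, map_mul, map_mul]; positivity
    · rw [map_mul]; positivity
    · rw [div_add_div _ _ (posK_ne hk) (posK_ne hk')]
      simp
  mul := by
    rintro _ _ ⟨g, k, hg, hk, rfl⟩ ⟨g', k', hg', hk', rfl⟩
    refine ⟨g * g', k * k', ?_, ?_, ?_⟩
    · rw [map_mul]; positivity
    · rw [map_mul]; positivity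
    · rw [div_mul_div_comm]
      simp
  inv := by
    rintro _ ⟨g, k, hg, hk, rfl⟩
    exact ⟨k, g, hk, hg, by rw [inv_div]⟩
  ne := by
    rintro _ ⟨g, k, hg, hk, rfl⟩
    exact div_ne_zero (posK_ne hg) (posK_ne hk)

theorem posK_x (i : Ix) : PosK (xk i) := ⟨X i, 1, by simp, by simp, by simp [xk]⟩

theorem xk_ne (i : Ix) : xk i ≠ 0 := posCone.ne (posK_x i)

/-- three primes -/
def pr : Fin 3 → ℚ := ![5, 7, 11]

theorem pr_ne (l : Fin 3) : pr l ≠ 0 := by fin_cases l <;> simp [pr]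

/-- scaling of the variables -/
def mu : Ix → ℚ := Sum.elim (fun l => ![2 ^ 2 * pr l.1 ^ 3, 3 ^ 2 * pr l.1 ^ 3, 2 * 3 * pr l.1] l.2)
  ![2, 3]

theorem mu_ne (i : Ix) : mu i ≠ 0 := by
  rcases i with ⟨l, i⟩ | i
  · have := pr_ne l
    fin_cases i <;> simp [mu, this]
  · fin_cases i <;> simp [mu]

noncomputable def sc (m : Ix → ℚ) : Rg →ₐ[ℚ] Rg := aeval (fun i => C (m i) * X i)

theorem sc_inj : Function.Injective (sc mu) := by
  have : (sc fun i => (mu i)⁻¹).comp (sc mu) = AlgHom.id ℚ Rg := by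
    apply MvPolynomial.algHom_ext
    intro i
    simp only [sc, AlgHom.comp_apply, aeval_X, map_mul, AlgHom.id_apply]
    rw [← MvPolynomial.algebraMap_eq, AlgHom.commutes, ← mul_assoc, MvPolynomial.algebraMap_eq,
      ← map_mul, mul_inv_cancel₀ (mu_ne i), map_one, one_mul]
  exact Function.LeftInverse.injective (g := sc fun i => (mu i)⁻¹) fun p => by
    rw [← AlgHom.comp_apply, this, AlgHom.id_apply]

theorem phi_inj : Function.Injective ((algebraMap Rg K).comp (sc mu : Rg →+* Rg)) := by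
  rw [RingHom.coe_comp]
  exact (IsFractionRing.injective Rg K).comp sc_inj

/-- the scaling automorphism -/
noncomputable def phi : K →+* K := IsFractionRing.lift phi_inj

theorem phi_alg (p : Rg) : phi (algebraMap Rg K p) = algebraMap Rg K (sc mu p) := by
  rw [phi, IsFractionRing.lift_algebraMap]
  rfl

theorem phi_const (z : ℚ) : phi (algebraMap ℚ K z) = algebraMap ℚ K z := by
  rw [IsScalarTower.algebraMap_apply ℚ Rg K, phi_alg, AlgHom.commutes]

theorem phi_x (i : Ix) : phi (xk i) = algebraMap ℚ K (mu i) * xk i := by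
  rw [xk, phi_alg, sc, aeval_X, map_mul, ← MvPolynomial.algebraMap_eq,
    ← IsScalarTower.algebraMap_apply ℚ Rg K]

/-- the scaling automorphism as a linear map -/
noncomputable def Phi : K →ₗ[ℚ] K where
  toFun := phi
  map_add' := map_add phi
  map_smul' := by
    intro z v
    rw [Algebra.smul_def, map_mul, phi_const, RingHom.id_apply, Algebra.smul_def]

theorem Phi_apply (v : K) : Phi v = phi v := rfl

/-- the exchange matrix of one block -/
def B3 : Fin 3 → Fin 3 → ℤ := ![![0, -1, 2], ![1, 0, -2], ![-3, 3, 0]]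
def b3 : Fin 2 → Fin 3 → ℤ := ![![3, -1, -4], ![1, -3, 4]]

/-- the exchange matrix: three blocks, with two common coefficient rows -/
def Bm : Matrix ((Fin 3 × Fin 3) ⊕ Fin 2) (Fin 3 × Fin 3) ℤ :=
  Matrix.of fun i j => Sum.elim (fun i : Fin 3 × Fin 3 => if i.1 = j.1 then B3 i.2 j.2 else 0)
    (fun a => b3 a j.2) i

theorem Bm_skew : SkewSymmetrizable Bm := by
  refine ⟨fun i => ![3, 3, 2] i.2, ?_, ?_⟩
  · rintro ⟨l, i⟩; fin_cases i <;> simp
  · rintro ⟨l, i⟩ ⟨l', j⟩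
    by_cases h : l = l'
    · subst h
      fin_cases i <;> fin_cases j <;> simp [Bm, B3]
    · simp [Bm, h, Ne.symm h]

theorem block0 : IsBlock (initialSeed Bm) := by
  intro l l' i j h
  simp [initialSeed, Bm, h]

noncomputable def ck : Fin 2 → K := fun a => xk (Sum.inr a)

/-- the core cluster variables -/
noncomputable def EK (l : Fin 3) : Fin 9 → K :=
  E (xk (Sum.inl (l, 0))) (xk (Sum.inl (l, 1))) (xk (Sum.inl (l, 2))) (ck 0) (ck 1)

noncomputable def HK (l : Fin 3) : HS K :=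
  H0 (xk (Sum.inl (l, 0))) (xk (Sum.inl (l, 1))) (xk (Sum.inl (l, 2))) (ck 0) (ck 1)

theorem rel_K (l : Fin 3) : Rel ck (blk (initialSeed Bm) l) (HK l) where
  x := by
    intro i
    have h0 := xk_ne (Sum.inr 0)
    have h1 := xk_ne (Sum.inr 1)
    fin_cases i
    · simp [initialSeed, blk, HK, H0, ck]
      field_simp
      rfl
    · simp [initialSeed, blk, HK, H0, ck]
      field_simp
      rfl
    · simp [initialSeed, blk, HK, H0, ck]
      field_simp
      rfl
  c := fun a => rfl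
  B := by
    intro i j
    fin_cases i <;> fin_cases j <;> simp [blk, initialSeed, Bm, B3, HK, H0]
  b := by
    intro a k
    fin_cases a <;> fin_cases k <;> simp [blk, initialSeed, Bm, b3, HK, H0, Fin.sum_univ_three]

theorem two_ne : (2 : K) ≠ 0 := two_ne_zero
theorem three_ne : (3 : K) ≠ 0 := three_ne_zero

/-- the primes in the field -/
noncomputable def prk (l : Fin 3) : K := algebraMap ℚ K (pr l)

theorem prk_ne (l : Fin 3) : prk l ≠ 0 := by
  rw [prk, Ne, map_eq_zero]; exact pr_ne l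

theorem alg2 : algebraMap ℚ K 2 = 2 := by
  have := map_natCast (algebraMap ℚ K) 2
  exact_mod_cast this
theorem alg3 : algebraMap ℚ K 3 = 3 := by
  have := map_natCast (algebraMap ℚ K) 3
  exact_mod_cast this

theorem phi_a (l : Fin 3) : phi (xk (Sum.inl (l, 0))) = 2 ^ 2 * prk l ^ 3 * xk (Sum.inl (l, 0)) := by
  rw [phi_x]; simp [mu, prk, alg2]
theorem phi_b (l : Fin 3) : phi (xk (Sum.inl (l, 1))) = 3 ^ 2 * prk l ^ 3 * xk (Sum.inl (l, 1)) := by
  rw [phi_x]; simp [mu, prk, alg3]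
theorem phi_t (l : Fin 3) : phi (xk (Sum.inl (l, 2))) = 2 * 3 * prk l * xk (Sum.inl (l, 2)) := by
  rw [phi_x]; simp [mu, prk, alg2, alg3]
theorem phi_c0 : phi (ck 0) = 2 * ck 0 := by
  rw [ck, phi_x]; simp [mu, alg2]
theorem phi_c1 : phi (ck 1) = 3 * ck 1 := by
  rw [ck, phi_x]; simp [mu, alg3]

theorem gr_K (l : Fin 3) : Gr phi (prk l) (HK l) :=
  H0_gr (prk_ne l) two_ne three_ne (phi_a l) (phi_b l) (phi_t l) (xk_ne _) (xk_ne _) phi_c0 phi_c1

theorem EK_gr (l : Fin 3) (i : Fin 9) :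
    phi (EK l i) = 2 ^ CB.e0 i * 3 ^ CB.e1 i * prk l ^ CB.e2 i * EK l i :=
  E_gr (prk_ne l) two_ne three_ne (phi_a l) (phi_b l) (phi_t l) phi_c0 phi_c1
    (xk_ne _) (xk_ne _) (xk_ne _) i

theorem ck_ne (a : Fin 2) : ck a ≠ 0 := xk_ne _

/-- classification of the cluster variables -/
theorem classify {y : K} (hy : y ∈ clusterVars Bm) : ∃ l, (∃ i, y = EK l i) ∨
    (y ≠ 0 ∧ ∃ w : Fin 2 → ℤ, ∃ v : ℤ, Bg0 w ∧
      phi y = 2 ^ w 0 * 3 ^ w 1 * prk l ^ v * y) := by
  obtain ⟨s, hs, ⟨l, k⟩, rfl⟩ := hy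
  have h1 := (reach_blk block0 hs).2 l
  obtain ⟨h, R, I, G⟩ := reach_inv posCone (posK_x (Sum.inl (l, 0))) (posK_x (Sum.inl (l, 1)))
    (posK_x (Sum.inl (l, 2))) (c := ck) (posK_x _) (posK_x _) (prk_ne l) h1 (rel_K l) (gr_K l)
  exact ⟨l, var_class posCone (posK_x _) (posK_x _) (posK_x _) (posK_x _) (posK_x _) R I G
    phi_c0 phi_c1 k⟩

/-- core variables are cluster variables -/
theorem EK_mem (l : Fin 3) (i : Fin 9) : EK l i ∈ clusterVars Bm := by
  obtain ⟨s', hs', k, hk⟩ := core_mem posCone (posK_x (Sum.inl (l, 0))) (posK_x (Sum.inl (l, 1)))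
    (posK_x (Sum.inl (l, 2))) (c := ck) (posK_x _) (posK_x _) (rel_K l) i
  obtain ⟨s, hs, rfl⟩ := reach_lift block0 l hs'
  exact ⟨s, hs, (l, k), hk⟩

theorem pos_EK (l : Fin 3) (i : Fin 9) : EK l i ≠ 0 := by
  have hp := posCone
  have pa := posK_x (Sum.inl (l, 0))
  have pb := posK_x (Sum.inl (l, 1))
  have pt := posK_x (Sum.inl (l, 2))
  have px : PosK (ck 0) := posK_x _
  have py : PosK (ck 1) := posK_x _
  apply hp.ne
  have pp : PosK ((xk (Sum.inl (l, 2)) ^ 3 + xk (Sum.inl (l, 0)) * ck 0 * ck 1 ^ 3) /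
    xk (Sum.inl (l, 1))) := hp.div (hp.add (hp.pow pt 3) (hp.mul (hp.mul pa px) (hp.pow py 3))) pb
  have pq : PosK ((xk (Sum.inl (l, 1)) * ck 0 ^ 3 * ck 1 + xk (Sum.inl (l, 2)) ^ 3) /
    xk (Sum.inl (l, 0))) := hp.div (hp.add (hp.mul (hp.mul pb (hp.pow px 3)) py) (hp.pow pt 3)) pa
  fin_cases i
  · exact pa
  · exact pb
  · exact pt
  · exact hp.div (hp.add (hp.add (hp.mul (hp.mul px (hp.pow py 3)) pa) (hp.pow pt 3))
      (hp.mul (hp.mul (hp.pow px 3) py) pb)) (hp.mul pa pb)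
  · exact pp
  · exact pq
  · exact hp.div (hp.add (hp.pow pp 2) (hp.mul (hp.pow px 6) (hp.pow py 2))) pt
  · exact hp.div (hp.add (hp.pow pq 2) (hp.mul (hp.pow px 2) (hp.pow py 6))) pt
  · exact hp.div (hp.add (hp.mul (hp.pow py 4) (hp.pow pa 2)) (hp.mul (hp.pow px 4) (hp.pow pb 2))) pt

end Pool.Agent.Y945.SP
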