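import Pool.Agent.Y945.SP.Coef

set_option linter.unusedSectionVars false
set_option linter.unusedSimpArgs false

namespace Pool.Agent.Y945.SP

attribute [-instance] DivisionRing.toRatAlgebra

open MvPolynomial

/-! ### components -/

/-- `y` is the component of `x` for the eigenvalue `μ` -/
def IsComp (x : K) (μ : ℚ) (y : K) : Prop :=
  y ∈ Module.End.eigenspace Phi μ ∧ x - y ∈ ⨆ ν, ⨆ (_ : ν ≠ μ), Module.End.eigenspace Phi ν

theorem IsComp.unique {x : K} {μ : ℚ} {y y' : K} (h : IsComp x μ y) (h' : IsComp x μ y') :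
    y = y' := by
  have hd : Disjoint (Module.End.eigenspace Phi μ)
      (⨆ ν, ⨆ (_ : ν ≠ μ), Module.End.eigenspace Phi ν) :=
    Module.End.eigenspaces_iSupIndep Phi μ
  have h1 : y - y' ∈ Module.End.eigenspace Phi μ := sub_mem h.1 h'.1
  have h2 : y - y' ∈ ⨆ ν, ⨆ (_ : ν ≠ μ), Module.End.eigenspace Phi ν := by
    have := sub_mem h'.2 h.2
    rwa [sub_sub_sub_cancel_left] at this
  exact sub_eq_zero.1 (Submodule.disjoint_def.1 hd _ h1 h2)

theorem IsComp.add {x x' : K} {μ : ℚ} {y y' : K} (h : IsComp x μ y) (h' : IsComp x' μ y') :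
    IsComp (x + x') μ (y + y') := by
  refine ⟨add_mem h.1 h'.1, ?_⟩
  have := add_mem h.2 h'.2
  rwa [show x - y + (x' - y') = x + x' - (y + y') by ring] at this

theorem IsComp.neg {x : K} {μ : ℚ} {y : K} (h : IsComp x μ y) : IsComp (-x) μ (-y) := by
  refine ⟨neg_mem h.1, ?_⟩
  have := neg_mem h.2
  rwa [show -(x - y) = -x - -y by ring] at this

theorem IsComp.self {x : K} {μ : ℚ} (h : Phi x = μ • x) : IsComp x μ x := by
  refine ⟨Module.End.mem_eigenspace_iff.2 h, ?_⟩
  rw [sub_self]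
  exact zero_mem _

theorem exists_comp {x : K} (hx : x ∈ AddSubgroup.closure (MM : Set K)) (μ : ℚ) :
    ∃ y ∈ AddSubgroup.closure {m | m ∈ MM ∧ Phi m = μ • m}, IsComp x μ y := by
  induction hx using AddSubgroup.closure_induction with
  | mem m hm =>
    obtain ⟨u, v, k, hh⟩ : ∃ u v k, Hom u v k m := by
      obtain ⟨u, v, k, n, hd⟩ := MM_cases hm
      exact ⟨_, _, _, hd.hom⟩
    by_cases h : lam u v k = μ
    · subst h
      exact ⟨m, AddSubgroup.subset_closure ⟨hm, hh⟩, IsComp.self hh⟩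
    · refine ⟨0, zero_mem _, zero_mem _, ?_⟩
      rw [sub_zero]
      exact (le_iSup₂ (f := fun ν (_ : ν ≠ μ) => Module.End.eigenspace Phi ν) _ h)
        (Module.End.mem_eigenspace_iff.2 hh)
  | zero => exact ⟨0, zero_mem _, zero_mem _, by rw [sub_zero]; exact zero_mem _⟩
  | add x y _ _ ihx ihy =>
    obtain ⟨a, ha, ha'⟩ := ihx
    obtain ⟨b, hb, hb'⟩ := ihy
    exact ⟨a + b, add_mem ha hb, ha'.add hb'⟩
  | neg x _ ih =>
    obtain ⟨b, hb, hb'⟩ := ih
    exact ⟨-b, neg_mem hb, hb'.neg⟩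

/-- the test functional vanishes on homogeneous elements of the cluster algebra -/
theorem tf_zero {b : K} (hb : b ∈ clusterAlgebra Bm) {h : LL} (hJ : J h = b)
    (hd : phi b = lamd • b) : tf h = 0 := by
  have h1 : b ∈ AddSubgroup.closure (MM : Set K) := Subring.mem_closure_iff.1 hb
  obtain ⟨y, hy, hc⟩ := exists_comp h1 lamd
  have h2 : y = b := hc.unique (IsComp.self hd)
  rw [h2] at hy
  have h3 : ∃ f, J f = b ∧ tf f = 0 := by
    clear h1 hc hd hJ h2 hb
    induction hy using AddSubgroup.closure_induction with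
    | mem m hm => exact deg_delta hm.1 hm.2
    | zero => exact ⟨0, map_zero _, map_zero _⟩
    | add x y _ _ hx hy =>
      obtain ⟨f, h1, h2⟩ := hx
      obtain ⟨g, h3, h4⟩ := hy
      exact ⟨f + g, by rw [map_add, h1, h3], by rw [map_add, h2, h4, add_zero]⟩
    | neg x _ hx =>
      obtain ⟨f, h1, h2⟩ := hx
      exact ⟨-f, by rw [map_neg, h1], by rw [map_neg, h2, neg_zero]⟩
  obtain ⟨f, h4, h5⟩ := h3
  rw [J_inj (hJ.trans h4.symm), h5]

/-! ### the products -/

/-- five block monomials `aQ`, `bP`, `dR`, `t²q`, `t²p` -/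
def W {V : Type} [CommMonoid V] (X : Fin 9 → V) : Fin 5 → V :=
  ![X 0 * X 7, X 1 * X 6, X 3 * X 8, X 2 ^ 2 * X 5, X 2 ^ 2 * X 4]

def VA : Fin 5 → ℤ := ![1, 0, 1, 0, 0]
def VB : Fin 5 → ℤ := ![0, 1, 1, 0, 0]

theorem W_al (k : Fin 5) : (W EB k).coeff al = VA k := by
  fin_cases k <;>
  simp [W, VA, EB, EG, sg_mul, sg_pow, add_mul, mul_add, pow_two, sg_coeff, al, be]

theorem W_be (k : Fin 5) : (W EB k).coeff be = VB k := by
  fin_cases k <;>
  simp [W, VB, EB, EG, sg_mul, sg_pow, add_mul, mul_add, pow_two, sg_coeff, al, be]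

/-- products of three block monomials in the field -/
noncomputable def T3 (k : Fin 3 → Fin 5) : K := ∏ l, W (EK l) (k l)
/-- their Laurent expansions -/
noncomputable def TL (k : Fin 3 → Fin 5) : LL := ∏ l, W (EL l) (k l)

theorem W_map {R S : Type} [CommSemiring R] [CommSemiring S] (f : R →+* S) (X : Fin 9 → R)
    (k : Fin 5) : f (W X k) = W (fun i => f (X i)) k := by
  fin_cases k <;> simp [W]

theorem J_TL (k : Fin 3 → Fin 5) : J (TL k) = T3 k := by
  rw [TL, T3, map_prod]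
  refine Finset.prod_congr rfl fun l _ => ?_
  refine (W_map (J : LL →+* K) (EL l) (k l)).trans ?_
  simp only [RingHom.coe_coe, J_EL]

theorem sp_TL (k : Fin 3 → Fin 5) : sp (TL k) = ∏ l, ib l (W EB (k l)) := by
  rw [TL, map_prod]
  refine Finset.prod_congr rfl fun l _ => ?_
  rw [W_map, W_map]
  simp only [sp_EL]

theorem W_mem {l : Fin 3} (k : Fin 5) : W (EL l) k ∈ NN := by
  fin_cases k
  · exact mul_mem (EL_NN _ _) (EL_NN _ _)
  · exact mul_mem (EL_NN _ _) (EL_NN _ _)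
  · exact mul_mem (EL_NN _ _) (EL_NN _ _)
  · exact mul_mem (pow_mem (EL_NN _ _) _) (EL_NN _ _)
  · exact mul_mem (pow_mem (EL_NN _ _) _) (EL_NN _ _)

theorem TL_NN (k : Fin 3 → Fin 5) : TL k ∈ NN := prod_mem fun _ _ => W_mem _

theorem T012_eig : phi (T3 ![0, 1, 2]) = lamd • T3 ![0, 1, 2] := by
  have h := (((EK_hom 0 0).mul (EK_hom 0 7)).mul ((EK_hom 1 1).mul (EK_hom 1 6))).mul
    ((EK_hom 2 3).mul (EK_hom 2 8))
  have e : T3 ![0, 1, 2] = EK 0 0 * EK 0 7 * (EK 1 1 * EK 1 6) * (EK 2 3 * EK 2 8) := by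
    simp [T3, W, Fin.prod_univ_three]
  rw [e]
  unfold Hom at h
  rw [Phi_apply] at h
  rw [h, lamd]
  congr 2
  simp [CB.e0, CB.e1, CB.e2]
  funext l
  fin_cases l <;> simp

/-- the two sides of the relation -/
def lhs : List (Fin 3 → Fin 5) :=
  [![3, 4, 2], ![2, 0, 1], ![2, 3, 4], ![1, 2, 0], ![4, 2, 3], ![0, 2, 4], ![3, 2, 1],
    ![2, 1, 3], ![2, 4, 0], ![1, 3, 2], ![4, 0, 2]]
def rhs : List (Fin 3 → Fin 5) :=
  [![0, 2, 1], ![3, 2, 4], ![2, 1, 0], ![2, 4, 3], ![1, 0, 2], ![4, 3, 2], ![0, 4, 2],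
    ![3, 1, 2], ![2, 0, 4], ![2, 3, 1], ![1, 2, 3], ![4, 2, 0]]

theorem key (l : Fin 3) : ck 0 * ck 1 * (EK l 3 * EK l 8) =
    ck 0 ^ 2 * (EK l 0 * EK l 7 - EK l 2 ^ 2 * EK l 5) +
      ck 1 ^ 2 * (EK l 1 * EK l 6 - EK l 2 ^ 2 * EK l 4) :=
  CB.key_identity (xk_ne _) (xk_ne _) (xk_ne _)

theorem relation : T3 ![0, 1, 2] + (lhs.map T3).sum = (rhs.map T3).sum := by
  apply mul_left_cancel₀ (mul_ne_zero (ck_ne 0) (ck_ne 1))
  have k0 := key 0
  have k1 := key 1
  have k2 := key 2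
  simp only [lhs, rhs, List.map_cons, List.map_nil, List.sum_cons, List.sum_nil, T3,
    Fin.prod_univ_three, W, Matrix.cons_val]
  generalize EK 0 0 * EK 0 7 = w0 at *
  generalize EK 0 1 * EK 0 6 = z0 at *
  generalize EK 0 3 * EK 0 8 = u0 at *
  generalize EK 0 2 ^ 2 * EK 0 5 = s0 at *
  generalize EK 0 2 ^ 2 * EK 0 4 = t0 at *
  generalize EK 1 0 * EK 1 7 = w1 at *
  generalize EK 1 1 * EK 1 6 = z1 at *
  generalize EK 1 3 * EK 1 8 = u1 at *
  generalize EK 1 2 ^ 2 * EK 1 5 = s1 at *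
  generalize EK 1 2 ^ 2 * EK 1 4 = t1 at *
  generalize EK 2 0 * EK 2 7 = w2 at *
  generalize EK 2 1 * EK 2 6 = z2 at *
  generalize EK 2 3 * EK 2 8 = u2 at *
  generalize EK 2 2 ^ 2 * EK 2 5 = s2 at *
  generalize EK 2 2 ^ 2 * EK 2 4 = t2 at *
  linear_combination ((w1 - s1) * (z2 - t2) - (z1 - t1) * (w2 - s2)) * k0 +
    ((z0 - t0) * (w2 - s2) - (w0 - s0) * (z2 - t2)) * k1 +
    ((w0 - s0) * (z1 - t1) - (z0 - t0) * (w1 - s1)) * k2

theorem rhs_small : ∀ k ∈ rhs, ¬ (0 < VA (k 0) * VB (k 1) * VA (k 2) ∧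
    0 < VA (k 0) * VB (k 1) * VB (k 2)) := by
  intro k hk
  simp only [rhs, List.mem_cons, List.not_mem_nil, or_false] at hk
  rcases hk with rfl | rfl | rfl | rfl | rfl | rfl | rfl | rfl | rfl | rfl | rfl | rfl <;>
    simp [VA, VB]

/-! ### the argument -/

section main

variable {C : Set K}

theorem SM_sub (hM : clusterMonomials Bm ⊆ C) : (SM : Set K) ⊆ C := fun _ hz => hM (SM_mem hz)

theorem closure_mul (hP : NonnegStructure C) {x y : K} (hx : x ∈ AddSubmonoid.closure C)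
    (hy : y ∈ AddSubmonoid.closure C) : x * y ∈ AddSubmonoid.closure C := by
  induction hx using AddSubmonoid.closure_induction with
  | mem b hb =>
    induction hy using AddSubmonoid.closure_induction with
    | mem b' hb' =>
      obtain ⟨γ, h0, h⟩ := hP b hb b' hb'
      rw [h]
      exact of_coord (C := C) (S := C) h0 fun c _ => c.2
    | zero => rw [mul_zero]; exact zero_mem _
    | add x y _ _ hx hy => rw [mul_add]; exact add_mem hx hy
  | zero => rw [zero_mul]; exact zero_mem _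
  | add x y _ _ hx hy => rw [add_mul]; exact add_mem hx hy

theorem EK_P (hM : clusterMonomials Bm ⊆ C) (l : Fin 3) (i : Fin 9) :
    EK l i ∈ AddSubmonoid.closure C := by
  apply AddSubmonoid.subset_closure
  apply hM
  obtain ⟨s, hs, k, hk⟩ := EK_mem l i
  refine ⟨s, hs, Pi.single (Sum.inl k) 1, ?_⟩
  rw [hk, Finset.prod_eq_single (Sum.inl k)]
  · simp
  · intro j _ hj; simp [Pi.single_eq_of_ne hj]
  · simp

theorem T3_P (hM : clusterMonomials Bm ⊆ C) (hP : NonnegStructure C) (k : Fin 3 → Fin 5) :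
    T3 k ∈ AddSubmonoid.closure C := by
  have hE := EK_P hM
  have m : ∀ {x y : K}, x ∈ AddSubmonoid.closure C → y ∈ AddSubmonoid.closure C →
      x * y ∈ AddSubmonoid.closure C := fun h h' => closure_mul hP h h'
  have hW : ∀ l k, W (EK l) k ∈ AddSubmonoid.closure C := by
    intro l k
    have h2 : EK l 2 ^ 2 ∈ AddSubmonoid.closure C := by rw [pow_two]; exact m (hE _ _) (hE _ _)
    fin_cases k
    · exact m (hE _ _) (hE _ _)
    · exact m (hE _ _) (hE _ _)
    · exact m (hE _ _) (hE _ _)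
    · exact m h2 (hE _ _)
    · exact m h2 (hE _ _)
  rw [T3, Fin.prod_univ_three]
  exact m (m (hW _ _) (hW _ _)) (hW _ _)

/-- summands of nonnegative Laurent polynomials are nonnegative Laurent polynomials -/
theorem faceP (hC : IsZBasis Bm C) (hM : clusterMonomials Bm ⊆ C) (hP : NonnegStructure C)
    {y w : K} (hy : y ∈ AddSubmonoid.closure C) (hw : w ∈ AddSubmonoid.closure C) {h : LL}
    (hh : h ∈ NN) (hs : J h = y + w) : ∃ f ∈ NN, J f = y := by
  obtain ⟨N, hN⟩ := NN_clear hh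
  have hx : ∏ i, xk i ^ N i ∈ AddSubmonoid.closure C :=
    AddSubmonoid.subset_closure (SM_sub hM (mon_mem N))
  rw [hs, add_mul] at hN
  have h1 := face hC.linearIndependent (SM_sub hM) (closure_mul hP hy hx) (closure_mul hP hw hx)
    (Subsemiring.mem_closure_iff.1 hN)
  exact NN_of_clear (Subsemiring.mem_closure_iff.2 h1)

theorem exists_b (hC : IsZBasis Bm C) (hM : clusterMonomials Bm ⊆ C) (hP : NonnegStructure C)
    (s : Fin 3 → G0) (l : List K) (hl : ∀ c ∈ l, c ∈ C) (h : LL) (hh : h ∈ NN)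
    (hs : J h = l.sum) (h0 : 0 < ps s h) :
    ∃ b ∈ C, ∃ w ∈ AddSubmonoid.closure C, l.sum = b + w ∧ ∃ f ∈ NN, J f = b ∧ 0 < ps s f := by
  induction l generalizing h with
  | nil =>
    exfalso
    rw [List.sum_nil, ← map_zero J] at hs
    rw [J_inj hs, map_zero] at h0
    exact lt_irrefl _ h0
  | cons c l ih =>
    rw [List.sum_cons] at hs
    have hc : c ∈ AddSubmonoid.closure C := AddSubmonoid.subset_closure (hl c (by simp))
    have hl' : l.sum ∈ AddSubmonoid.closure C :=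
      list_sum_mem fun T hT => AddSubmonoid.subset_closure (hl T (by simp [hT]))
    obtain ⟨f, hf, hf'⟩ := faceP hC hM hP hc hl' hh hs
    obtain ⟨g, hg, hg'⟩ := faceP hC hM hP hl' hc hh (hs.trans (add_comm _ _))
    have e : h = f + g := J_inj (by rw [hs, map_add, hf', hg'])
    by_cases h1 : 0 < ps s f
    · exact ⟨c, hl c (by simp), l.sum, hl', by rw [List.sum_cons], f, hf, hf', h1⟩
    · have h2 : 0 < ps s g := by
        rw [e, map_add] at h0
        linarith
      obtain ⟨b, hb, w, hw, h3, h4⟩ := ih (fun c hc => hl c (by simp [hc])) g hg hg' h2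
      refine ⟨b, hb, c + w, add_mem hc hw, ?_, h4⟩
      rw [List.sum_cons, h3]
      ring

theorem no_basis (hC : IsZBasis Bm C) (hM : clusterMonomials Bm ⊆ C) : ¬ NonnegStructure C := by
  intro hP
  obtain ⟨l, hl, hl'⟩ := AddSubmonoid.exists_list_of_mem_closure (T3_P hM hP ![0, 1, 2])
  have v : ∀ k s, ps s (TL k) = ∏ l, (W EB (k l)).coeff (s l) := fun k s => ps_prod (sp_TL k) s
  have v1 : ps ![al, be, al] (TL ![0, 1, 2]) = 1 := by
    rw [v]; simp [Fin.prod_univ_three, W_al, W_be, VA, VB]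
  obtain ⟨b, hb, w, hw, h1, f, hf, hJ, hpos⟩ := exists_b hC hM hP ![al, be, al] l hl
    (TL ![0, 1, 2]) (TL_NN _) (by rw [J_TL, hl']) (by rw [v1]; norm_num)
  rw [hl'] at h1
  have hbP : b ∈ AddSubmonoid.closure C := AddSubmonoid.subset_closure hb
  obtain ⟨g, hg, hg'⟩ := faceP hC hM hP hw hbP (TL_NN ![0, 1, 2])
    (by rw [J_TL, h1, add_comm])
  have e : TL ![0, 1, 2] = f + g := J_inj (by rw [J_TL, h1, map_add, hJ, hg'])
  -- the element `b` is homogeneous
  have hbd : phi b = lamd • b := by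
    rw [← hJ]
    apply eig_of_ch
    intro x hx
    have h2 : (TL ![0, 1, 2]).coeff x ≠ 0 := by
      rw [e, AddMonoidAlgebra.coeff_add, Finsupp.add_apply]
      have a1 := NN_nonneg hf x
      have a2 := NN_nonneg hg x
      have a3 : 0 < f.coeff x := lt_of_le_of_ne a1 (Ne.symm hx)
      exact ne_of_gt (by linarith)
    refine ch_of_eig ?_ h2
    rw [J_TL]
    exact T012_eig
  have hbA : b ∈ clusterAlgebra Bm := (hC.span_iff b).1 (Submodule.subset_span hb)
  have ht := tf_zero hbA hJ hbd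
  -- comparison
  have hle : ∀ s, ps s f ≤ ps s (TL ![0, 1, 2]) := by
    intro s
    rw [e, map_add]
    have := ps_nonneg s hg
    linarith
  have z1 : ps ![al, al, be] f = 0 := by
    apply le_antisymm _ (ps_nonneg _ hf)
    refine (hle _).trans (le_of_eq ?_)
    rw [v]; simp [Fin.prod_univ_three, W_al, W_be, VA, VB]
  have z2 : ps ![be, al, al] f = 0 := by
    apply le_antisymm _ (ps_nonneg _ hf)
    refine (hle _).trans (le_of_eq ?_)
    rw [v]; simp [Fin.prod_univ_three, W_al, W_be, VA, VB]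
  have z3 : ps ![be, be, al] f = 0 := by
    apply le_antisymm _ (ps_nonneg _ hf)
    refine (hle _).trans (le_of_eq ?_)
    rw [v]; simp [Fin.prod_univ_three, W_al, W_be, VA, VB]
  have z4 : ps ![be, al, be] f = 0 := by
    apply le_antisymm _ (ps_nonneg _ hf)
    refine (hle _).trans (le_of_eq ?_)
    rw [v]; simp [Fin.prod_univ_three, W_al, W_be, VA, VB]
  have hpos' : 0 < ps ![al, be, be] f := by
    have : ps ![al, al, be] f + ps ![al, be, al] f + ps ![be, al, al] f - ps ![be, be, al] f -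
        ps ![be, al, be] f - ps ![al, be, be] f = 0 := ht
    rw [z1, z2, z3, z4] at this
    linarith
  -- the other side
  have hL : (lhs.map T3).sum ∈ AddSubmonoid.closure C := by
    refine list_sum_mem fun T hT => ?_
    obtain ⟨k, -, rfl⟩ := List.mem_map.1 hT
    exact T3_P hM hP k
  have hR : b + (w + (lhs.map T3).sum) = (rhs.map T3).sum := by
    rw [← relation, h1]; ring
  obtain ⟨T, hT, w', hw', h3⟩ := choose_list hC.linearIndependent hb (add_mem hw hL) _
    (fun T hT => by obtain ⟨k, -, rfl⟩ := List.mem_map.1 hT; exact T3_P hM hP k) hR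
  obtain ⟨k, hk, rfl⟩ := List.mem_map.1 hT
  obtain ⟨g', hg', hg''⟩ := faceP hC hM hP hw' hbP (TL_NN k) (by rw [J_TL, h3, add_comm])
  have e' : TL k = f + g' := J_inj (by rw [J_TL, h3, map_add, hJ, hg''])
  have hle' : ∀ s, ps s f ≤ ps s (TL k) := by
    intro s
    rw [e', map_add]
    have := ps_nonneg s hg'
    linarith
  refine rhs_small k hk ⟨?_, ?_⟩
  · have := lt_of_lt_of_le hpos (hle' _)
    rw [v] at this
    simp [Fin.prod_univ_three, W_al, W_be] at this
    exact_mod_cast this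
  · have := lt_of_lt_of_le hpos' (hle' _)
    rw [v] at this
    simp [Fin.prod_univ_three, W_al, W_be] at this
    exact_mod_cast this

end main

end Pool.Agent.Y945.SP
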