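import Pool.Agent.Y945.SP.FieldK

set_option linter.unusedSectionVars false
set_option linter.unusedSimpArgs false

namespace Pool.Agent.Y945.SP

attribute [-instance] DivisionRing.toRatAlgebra

open MvPolynomial
open Pool.Agent.Y945.CB (e0 e1 e2)

/-- the eigenvalues of the scaling -/
noncomputable def lam (u v : ℤ) (k : Fin 3 → ℤ) : ℚ := 2 ^ u * 3 ^ v * ∏ l, pr l ^ k l

theorem val_aux (p : ℕ) [Fact p.Prime] (u v : ℤ) (k : Fin 3 → ℤ) :
    padicValRat p (lam u v k) =
      u * padicValNat p 2 + v * padicValNat p 3 + (k 0 * padicValNat p 5 + k 1 * padicValNat p 7 +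
        k 2 * padicValNat p 11) := by
  have h2 : ((2 : ℚ) ^ u) ≠ 0 := zpow_ne_zero _ (by norm_num)
  have h3 : ((3 : ℚ) ^ v) ≠ 0 := zpow_ne_zero _ (by norm_num)
  have h5 : ((5 : ℚ) ^ k 0) ≠ 0 := zpow_ne_zero _ (by norm_num)
  have h7 : ((7 : ℚ) ^ k 1) ≠ 0 := zpow_ne_zero _ (by norm_num)
  have h11 : ((11 : ℚ) ^ k 2) ≠ 0 := zpow_ne_zero _ (by norm_num)
  have e : lam u v k = 2 ^ u * 3 ^ v * (5 ^ k 0 * 7 ^ k 1 * 11 ^ k 2) := by
    simp [lam, pr, Fin.prod_univ_three]
  rw [e, padicValRat.mul (mul_ne_zero h2 h3) (mul_ne_zero (mul_ne_zero h5 h7) h11),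
    padicValRat.mul h2 h3, padicValRat.mul (mul_ne_zero h5 h7) h11, padicValRat.mul h5 h7,
    padicValRat.zpow, padicValRat.zpow, padicValRat.zpow, padicValRat.zpow, padicValRat.zpow]
  rw [← padicValRat.of_nat, ← padicValRat.of_nat, ← padicValRat.of_nat, ← padicValRat.of_nat,
    ← padicValRat.of_nat]
  norm_num

theorem lam_inj {u v u' v' : ℤ} {k k' : Fin 3 → ℤ} (h : lam u v k = lam u' v' k') :
    u = u' ∧ v = v' ∧ k = k' := by
  have : Fact (Nat.Prime 2) := ⟨by norm_num⟩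
  have : Fact (Nat.Prime 3) := ⟨by norm_num⟩
  have : Fact (Nat.Prime 5) := ⟨by norm_num⟩
  have : Fact (Nat.Prime 7) := ⟨by norm_num⟩
  have : Fact (Nat.Prime 11) := ⟨by norm_num⟩
  have z : ∀ p n : ℕ, ¬ p ∣ n → padicValNat p n = 0 := fun p n hn =>
    padicValNat.eq_zero_of_not_dvd hn
  have a2 := congrArg (padicValRat 2) h
  have a3 := congrArg (padicValRat 3) h
  have a5 := congrArg (padicValRat 5) h
  have a7 := congrArg (padicValRat 7) h
  have a11 := congrArg (padicValRat 11) h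
  rw [val_aux, val_aux, padicValNat_self, z 2 3 (by norm_num), z 2 5 (by norm_num),
    z 2 7 (by norm_num), z 2 11 (by norm_num)] at a2
  rw [val_aux, val_aux, padicValNat_self, z 3 2 (by norm_num), z 3 5 (by norm_num),
    z 3 7 (by norm_num), z 3 11 (by norm_num)] at a3
  rw [val_aux, val_aux, padicValNat_self, z 5 2 (by norm_num), z 5 3 (by norm_num),
    z 5 7 (by norm_num), z 5 11 (by norm_num)] at a5
  rw [val_aux, val_aux, padicValNat_self, z 7 2 (by norm_num), z 7 3 (by norm_num),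
    z 7 5 (by norm_num), z 7 11 (by norm_num)] at a7
  rw [val_aux, val_aux, padicValNat_self, z 11 2 (by norm_num), z 11 3 (by norm_num),
    z 11 5 (by norm_num), z 11 7 (by norm_num)] at a11
  push_cast at a2 a3 a5 a7 a11
  refine ⟨by linarith, by linarith, ?_⟩
  funext i
  fin_cases i
  · show k 0 = k' 0; linarith
  · show k 1 = k' 1; linarith
  · show k 2 = k' 2; linarith

theorem lam_mul (u v u' v' : ℤ) (k k' : Fin 3 → ℤ) :
    lam u v k * lam u' v' k' = lam (u + u') (v + v') (k + k') := by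
  unfold lam
  rw [zpow_add₀ (by norm_num : (2 : ℚ) ≠ 0), zpow_add₀ (by norm_num : (3 : ℚ) ≠ 0)]
  simp only [Pi.add_apply, zpow_add₀ (pr_ne _), Finset.prod_mul_distrib]
  ring

theorem lam_zero : lam 0 0 0 = 1 := by simp [lam]

/-- homogeneous elements -/
def Hom (u v : ℤ) (k : Fin 3 → ℤ) (m : K) : Prop := Phi m = lam u v k • m

theorem Hom.one : Hom 0 0 0 (1 : K) := by
  unfold Hom
  rw [lam_zero, one_smul, Phi_apply, map_one]

theorem Hom.mul {u v u' v' : ℤ} {k k' : Fin 3 → ℤ} {m m' : K} (h : Hom u v k m)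
    (h' : Hom u' v' k' m') : Hom (u + u') (v + v') (k + k') (m * m') := by
  unfold Hom at *
  rw [Phi_apply] at *
  rw [map_mul, h, h', smul_mul_smul_comm, lam_mul]

theorem Hom.pow {u v : ℤ} {k : Fin 3 → ℤ} {m : K} (h : Hom u v k m) (n : ℕ) :
    Hom (n * u) (n * v) ((n : ℤ) • k) (m ^ n) := by
  induction n with
  | zero => simpa using Hom.one
  | succ n ih =>
    have := ih.mul h
    rw [← pow_succ] at this
    have e : ∀ z : ℤ, ((n + 1 : ℕ) : ℤ) * z = n * z + z := by intro z; push_cast; ring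
    have e' : ((n + 1 : ℕ) : ℤ) • k = (n : ℤ) • k + k := by push_cast; rw [add_smul, one_smul]
    rw [e, e, e']
    exact this

theorem Hom.deg {u v u' v' : ℤ} {k k' : Fin 3 → ℤ} {m : K} (hm : m ≠ 0) (h : Hom u v k m)
    (h' : Phi m = lam u' v' k' • m) : u = u' ∧ v = v' ∧ k = k' := by
  apply lam_inj
  unfold Hom at h
  rw [h] at h'
  exact smul_left_injective ℚ hm h'

theorem alg_lam (l : Fin 3) (u v k : ℤ) : algebraMap ℚ K (lam u v (Pi.single l k)) =
    2 ^ u * 3 ^ v * prk l ^ k := by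
  have e : ∏ i, pr i ^ (Pi.single l k : Fin 3 → ℤ) i = pr l ^ k := by
    rw [Finset.prod_eq_single l]
    · simp
    · intro j _ hj; simp [Pi.single_eq_of_ne hj]
    · simp
  rw [lam, e, map_mul, map_mul, map_zpow₀, map_zpow₀, map_zpow₀, alg2, alg3]
  rfl

theorem Hom.of_phi {u v k : ℤ} {l : Fin 3} {m : K}
    (h : phi m = 2 ^ u * 3 ^ v * prk l ^ k * m) : Hom u v (Pi.single l k) m := by
  unfold Hom
  rw [Phi_apply, h, Algebra.smul_def, alg_lam]

theorem EK_hom (l : Fin 3) (i : Fin 9) : Hom (e0 i) (e1 i) (Pi.single l (e2 i)) (EK l i) :=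
  Hom.of_phi (EK_gr l i)

theorem ck_hom0 : Hom 1 0 0 (ck 0) := by
  have : Hom 1 0 (Pi.single 0 0) (ck 0) := by
    apply Hom.of_phi; rw [phi_c0]; simp
  simpa using this

theorem ck_hom1 : Hom 0 1 0 (ck 1) := by
  have : Hom 0 1 (Pi.single 0 0) (ck 1) := by
    apply Hom.of_phi; rw [phi_c1]; simp
  simpa using this

/-- data of a monomial in the cluster variables of one block -/
def BD (l : Fin 3) (u v k : ℤ) (m : K) : Prop :=
  m ≠ 0 ∧ Hom u v (Pi.single l k) m ∧
    ((∃ e : Fin 9 → ℕ, m = ∏ i, EK l i ^ e i ∧ u = ∑ i, (e i : ℤ) * e0 i ∧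
      v = ∑ i, (e i : ℤ) * e1 i ∧ k = ∑ i, (e i : ℤ) * e2 i) ∨
    (1 ≤ u ∧ 1 ≤ v ∧ (12 ≤ u ∨ 12 ≤ v ∨ 17 ≤ u + v)))

theorem BD.nonneg {l : Fin 3} {u v k : ℤ} {m : K} (h : BD l u v k m) : 0 ≤ u ∧ 0 ≤ v := by
  obtain ⟨-, -, ⟨e, -, rfl, rfl, -⟩ | ⟨h0, h1, -⟩⟩ := h
  · constructor
    · refine Finset.sum_nonneg fun i _ => mul_nonneg (Int.natCast_nonneg _) ?_
      fin_cases i <;> simp [e0]
    · refine Finset.sum_nonneg fun i _ => mul_nonneg (Int.natCast_nonneg _) ?_
      fin_cases i <;> simp [e1]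
  · omega

theorem BD.one (l : Fin 3) : BD l 0 0 0 1 :=
  ⟨one_ne_zero, by simpa using Hom.one, Or.inl ⟨0, by simp, by simp, by simp, by simp⟩⟩

theorem BD.mul {l : Fin 3} {u v k u' v' k' : ℤ} {m m' : K} (h : BD l u v k m)
    (h' : BD l u' v' k' m') : BD l (u + u') (v + v') (k + k') (m * m') := by
  have n1 := h.nonneg
  have n2 := h'.nonneg
  obtain ⟨h0, h1, h2⟩ := h
  obtain ⟨h0', h1', h2'⟩ := h'
  refine ⟨mul_ne_zero h0 h0', ?_, ?_⟩
  · have := h1.mul h1'
    rwa [← Pi.single_add] at this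
  rcases h2 with ⟨e, rfl, rfl, rfl, rfl⟩ | ⟨h3, h4, h5⟩
  · rcases h2' with ⟨e', rfl, rfl, rfl, rfl⟩ | ⟨h3', h4', h5'⟩
    · left
      refine ⟨e + e', ?_, ?_, ?_, ?_⟩
      · simp only [Pi.add_apply, pow_add, Finset.prod_mul_distrib]
      · simp only [Pi.add_apply, Nat.cast_add, add_mul, Finset.sum_add_distrib]
      · simp only [Pi.add_apply, Nat.cast_add, add_mul, Finset.sum_add_distrib]
      · simp only [Pi.add_apply, Nat.cast_add, add_mul, Finset.sum_add_distrib]
    · right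
      refine ⟨by omega, by omega, by omega⟩
  · right
    refine ⟨by omega, by omega, by omega⟩

theorem BD.core (l : Fin 3) (i : Fin 9) : BD l (e0 i) (e1 i) (e2 i) (EK l i) := by
  have s : ∀ f : Fin 9 → ℤ, f i = ∑ j, ((Pi.single i 1 : Fin 9 → ℕ) j : ℤ) * f j := by
    intro f
    rw [Finset.sum_eq_single i]
    · simp
    · intro j _ hj; simp [Pi.single_eq_of_ne hj]
    · simp
  refine ⟨pos_EK l i, EK_hom l i, Or.inl ⟨Pi.single i 1, ?_, s _, s _, s _⟩⟩
  rw [Finset.prod_eq_single i]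
  · simp
  · intro j _ hj; simp [Pi.single_eq_of_ne hj]
  · simp

/-- the monoid generated by the cluster and coefficient variables -/
noncomputable def MM : Submonoid K :=
  Submonoid.closure (clusterVars Bm ∪ Set.range (coeffVar : Fin 2 → K))

/-- data of a monomial -/
def MD (u v : Fin 3 → ℤ) (k : Fin 3 → ℤ) (n : Fin 2 → ℕ) (m : K) : Prop :=
  ∃ b : Fin 3 → K, (∀ l, BD l (u l) (v l) (k l) (b l)) ∧ m = (∏ l, b l) * (ck 0 ^ n 0 * ck 1 ^ n 1)

theorem MD.mul {u v k u' v' k' : Fin 3 → ℤ} {n n' : Fin 2 → ℕ} {m m' : K} (h : MD u v k n m)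
    (h' : MD u' v' k' n' m') : MD (u + u') (v + v') (k + k') (n + n') (m * m') := by
  obtain ⟨b, hb, rfl⟩ := h
  obtain ⟨b', hb', rfl⟩ := h'
  refine ⟨fun l => b l * b' l, fun l => (hb l).mul (hb' l), ?_⟩
  simp only [Pi.add_apply, pow_add, Finset.prod_mul_distrib]
  ring

theorem MD.ofBD {l : Fin 3} {u v k : ℤ} {m : K} (h : BD l u v k m) :
    MD (Pi.single l u) (Pi.single l v) (Pi.single l k) 0 m := by
  classical
  refine ⟨fun j => if j = l then m else 1, fun j => ?_, ?_⟩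
  · by_cases hj : j = l
    · subst hj
      simpa using h
    · simpa [hj] using BD.one j
  · simp

theorem MM_cases {m : K} (hm : m ∈ MM) : ∃ u v k n, MD u v k n m := by
  induction hm using Submonoid.closure_induction with
  | mem m hm =>
    rcases hm with hm | ⟨j, rfl⟩
    · obtain ⟨l, ⟨i, rfl⟩ | ⟨h0, w, v, hw, hh⟩⟩ := classify hm
      · exact ⟨_, _, _, _, MD.ofBD (BD.core l i)⟩
      · exact ⟨_, _, _, _, MD.ofBD (l := l) (u := w 0) (v := w 1) (k := v)
          ⟨h0, Hom.of_phi hh, Or.inr hw⟩⟩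
    · refine ⟨0, 0, 0, Pi.single j 1, fun _ => 1, fun l => BD.one l, ?_⟩
      have : (coeffVar j : K) = ck j := rfl
      rw [this]
      fin_cases j <;> simp
  | one => exact ⟨0, 0, 0, 0, fun _ => 1, fun l => BD.one l, by simp⟩
  | mul m m' _ _ ih ih' =>
    obtain ⟨u, v, k, n, h⟩ := ih
    obtain ⟨u', v', k', n', h'⟩ := ih'
    exact ⟨_, _, _, _, h.mul h'⟩

theorem MD.ne {u v k : Fin 3 → ℤ} {n : Fin 2 → ℕ} {m : K} (h : MD u v k n m) : m ≠ 0 := by
  obtain ⟨b, hb, rfl⟩ := h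
  exact mul_ne_zero (Finset.prod_ne_zero_iff.2 fun l _ => (hb l).1)
    (mul_ne_zero (pow_ne_zero _ (ck_ne _)) (pow_ne_zero _ (ck_ne _)))

theorem MD.hom {u v k : Fin 3 → ℤ} {n : Fin 2 → ℕ} {m : K} (h : MD u v k n m) :
    Hom (u 0 + u 1 + u 2 + n 0) (v 0 + v 1 + v 2 + n 1) k m := by
  obtain ⟨b, hb, rfl⟩ := h
  have h := ((((hb 0).2.1).mul ((hb 1).2.1)).mul ((hb 2).2.1)).mul
    ((ck_hom0.pow (n 0)).mul (ck_hom1.pow (n 1)))
  rw [← Fin.prod_univ_three] at h
  have e : (Pi.single 0 (k 0) + Pi.single 1 (k 1) + Pi.single 2 (k 2) +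
      (((n 0 : ℤ) • (0 : Fin 3 → ℤ)) + ((n 1 : ℤ) • (0 : Fin 3 → ℤ)))) = k := by
    funext i
    fin_cases i <;> simp
  rw [e] at h
  simpa using h

/-- the possible core monomials of one block of level at most eight -/
inductive S8 : ℤ → ℤ → ℕ → ℕ → ℕ → ℕ → ℕ → ℕ → ℕ → ℕ → ℕ → Prop
  | t2 : S8 2 2 0 0 2 0 0 0 0 0 0
  | bQ : S8 1 7 0 1 0 0 0 0 0 1 0
  | t2q : S8 3 5 0 0 2 0 0 1 0 0 0
  | bt2d : S8 3 5 0 1 2 1 0 0 0 0 0
  | aQ : S8 3 5 1 0 0 0 0 0 0 1 0
  | dR : S8 4 4 0 0 0 1 0 0 0 0 1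
  | t2p : S8 5 3 0 0 2 0 1 0 0 0 0
  | at2d : S8 5 3 1 0 2 1 0 0 0 0 0
  | bP : S8 5 3 0 1 0 0 0 0 1 0 0
  | aP : S8 7 1 1 0 0 0 0 0 1 0 0

theorem sol8 (a b t d p q P Q R : ℕ) (u v : ℤ)
    (h0 : (u : ℤ) = 2 * a + t + d + 3 * p + q + 5 * P + Q + 3 * R)
    (h1 : (v : ℤ) = 2 * b + t + d + p + 3 * q + P + 5 * Q + 3 * R)
    (h2 : (3 * a + 3 * b + t - 3 * d - P - Q + 5 * R : ℤ) = 2) (h8 : u + v ≤ 8) :
    S8 u v a b t d p q P Q R := by
  have hs : a + b + t + d + 2 * p + 2 * q + 3 * P + 3 * Q + 3 * R ≤ 4 := by omega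
  by_cases h : R = 1
  · obtain rfl : R = 1 := h
    obtain rfl : P = 0 := by omega
    obtain rfl : Q = 0 := by omega
    obtain rfl : p = 0 := by omega
    obtain rfl : q = 0 := by omega
    obtain rfl : d = 1 := by omega
    obtain rfl : a = 0 := by omega
    obtain rfl : b = 0 := by omega
    obtain rfl : t = 0 := by omega
    obtain rfl : u = 4 := by omega
    obtain rfl : v = 4 := by omega
    exact .dR
  obtain rfl : R = 0 := by omega
  by_cases h : P = 1
  · obtain rfl : P = 1 := h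
    obtain rfl : Q = 0 := by omega
    obtain rfl : p = 0 := by omega
    obtain rfl : q = 0 := by omega
    obtain rfl : d = 0 := by omega
    obtain rfl : t = 0 := by omega
    by_cases h : a = 1
    · obtain rfl : a = 1 := h
      obtain rfl : b = 0 := by omega
      obtain rfl : u = 7 := by omega
      obtain rfl : v = 1 := by omega
      exact .aP
    · obtain rfl : a = 0 := by omega
      obtain rfl : b = 1 := by omega
      obtain rfl : u = 5 := by omega
      obtain rfl : v = 3 := by omega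
      exact .bP
  obtain rfl : P = 0 := by omega
  by_cases h : Q = 1
  · obtain rfl : Q = 1 := h
    obtain rfl : p = 0 := by omega
    obtain rfl : q = 0 := by omega
    obtain rfl : d = 0 := by omega
    obtain rfl : t = 0 := by omega
    by_cases h : a = 1
    · obtain rfl : a = 1 := h
      obtain rfl : b = 0 := by omega
      obtain rfl : u = 3 := by omega
      obtain rfl : v = 5 := by omega
      exact .aQ
    · obtain rfl : a = 0 := by omega
      obtain rfl : b = 1 := by omega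
      obtain rfl : u = 1 := by omega
      obtain rfl : v = 7 := by omega
      exact .bQ
  obtain rfl : Q = 0 := by omega
  obtain rfl : t = 2 := by omega
  by_cases h : p = 1
  · obtain rfl : p = 1 := h
    obtain rfl : q = 0 := by omega
    obtain rfl : d = 0 := by omega
    obtain rfl : a = 0 := by omega
    obtain rfl : b = 0 := by omega
    obtain rfl : u = 5 := by omega
    obtain rfl : v = 3 := by omega
    exact .t2p
  obtain rfl : p = 0 := by omega
  by_cases h : q = 1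
  · obtain rfl : q = 1 := h
    obtain rfl : d = 0 := by omega
    obtain rfl : a = 0 := by omega
    obtain rfl : b = 0 := by omega
    obtain rfl : u = 3 := by omega
    obtain rfl : v = 5 := by omega
    exact .t2q
  obtain rfl : q = 0 := by omega
  by_cases h : d = 1
  · obtain rfl : d = 1 := h
    by_cases h : a = 1
    · obtain rfl : a = 1 := h
      obtain rfl : b = 0 := by omega
      obtain rfl : u = 5 := by omega
      obtain rfl : v = 3 := by omega
      exact .at2d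
    · obtain rfl : a = 0 := by omega
      obtain rfl : b = 1 := by omega
      obtain rfl : u = 3 := by omega
      obtain rfl : v = 5 := by omega
      exact .bt2d
  obtain rfl : d = 0 := by omega
  obtain rfl : a = 0 := by omega
  obtain rfl : b = 0 := by omega
  obtain rfl : u = 2 := by omega
  obtain rfl : v = 2 := by omega
  exact .t2

/-- lower bounds for blocks of third degree two -/
theorem BD.low {l : Fin 3} {u v : ℤ} {m : K} (h : BD l u v 2 m) : 1 ≤ u ∧ 1 ≤ v ∧ 4 ≤ u + v := by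
  obtain ⟨-, -, ⟨e, -, h0, h1, h2⟩ | ⟨h0, h1, h2⟩⟩ := h
  · simp [Fin.sum_univ_succ, e0] at h0
    simp [Fin.sum_univ_succ, e1] at h1
    simp [Fin.sum_univ_succ, e2] at h2
    refine ⟨?_, ?_, ?_⟩
    · by_contra h
      have : e 0 = 0 := by omega
      have : e 2 = 0 := by omega
      have : e 3 = 0 := by omega
      have : e 8 = 0 := by omega
      have : e 6 = 0 := by omega
      have : e 7 = 0 := by omega
      omega
    · by_contra h
      have : e 1 = 0 := by omega
      have : e 2 = 0 := by omega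
      have : e 3 = 0 := by omega
      have : e 8 = 0 := by omega
      have : e 6 = 0 := by omega
      have : e 7 = 0 := by omega
      omega
    · by_contra h
      have : e 4 = 0 := by omega
      have : e 5 = 0 := by omega
      have : e 8 = 0 := by omega
      have : e 6 = 0 := by omega
      have : e 7 = 0 := by omega
      have : e 0 + e 1 + e 2 + e 3 ≤ 1 := by omega
      omega
  · refine ⟨by omega, by omega, by omega⟩

/-- a core monomial of one block -/
def cm {V : Type} [CommMonoid V] (X : Fin 9 → V) (a b t d p q P Q R : ℕ) : V :=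
  X 0 ^ a * X 1 ^ b * X 2 ^ t * X 3 ^ d * X 4 ^ p * X 5 ^ q * X 6 ^ P * X 7 ^ Q * X 8 ^ R

theorem BD.eight {l : Fin 3} {u v : ℤ} {m : K} (h : BD l u v 2 m) (hu : u ≤ 11) (hv : v ≤ 11)
    (h16 : u + v ≤ 16) :
    (∃ e : Fin 9 → ℕ, m = ∏ i, EK l i ^ e i) ∧
    (u + v ≤ 8 → ∃ a b t d p q P Q R : ℕ, S8 u v a b t d p q P Q R ∧
      m = cm (EK l) a b t d p q P Q R) := by
  obtain ⟨-, -, ⟨e, rfl, h0, h1, h2⟩ | ⟨h0, h1, h2⟩⟩ := h
  · refine ⟨⟨e, rfl⟩, fun h8 => ?_⟩
    simp [Fin.sum_univ_succ, e0] at h0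
    simp [Fin.sum_univ_succ, e1] at h1
    simp [Fin.sum_univ_succ, e2] at h2
    refine ⟨e 0, e 1, e 2, e 3, e 4, e 5, e 6, e 7, e 8, sol8 _ _ _ _ _ _ _ _ _ _ _ (by omega)
      (by omega) (by omega) h8, ?_⟩
    simp only [cm, Fin.prod_univ_succ]
    simp [mul_assoc]
  · omega

end Pool.Agent.Y945.SP
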