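import Pool.Agent.Y945.CB.Bridge

set_option linter.unusedSectionVars false
set_option linter.unusedSimpArgs false
set_option linter.unusedTactic false

/-!
The description of all seeds of `Pool.Agent.Y945.CB`, with a general notion of large weight.
-/

namespace Pool.Agent.Y945.SP

open Pool.Agent.Y945.CB (HS At PosCone Pent Sh1 Sh2 Sh3 Sh4 Sh5 cases3 Chain InPent TC)

variable {F : Type} [Field F]

/-- an upward closed set of weights -/
def Up (Bg : (Fin 2 → ℤ) → Prop) : Prop := ∀ w w', Bg w → (∀ a, w a ≤ w' a) → Bg w'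

/-- element of the core set, or of large weight -/
def okv (Bg : (Fin 2 → ℤ) → Prop) (C : Set (F × (Fin 2 → ℤ))) (x : F) (w : Fin 2 → ℤ) : Prop :=
  (x, w) ∈ C ∨ Bg w

/-- wild region: last mutated position is the third one -/
structure WildAt (Bg : (Fin 2 → ℤ) → Prop) (C : Set (F × (Fin 2 → ℤ))) (h : HS F)
    (i j k : Fin 3) (x₁ x₂ x₃ : F)
    (w₁ w₂ w₃ : Fin 2 → ℤ) (A A' P P' Q Q' δ : ℤ) : Prop where
  H : At h i j k x₁ x₂ x₃ w₁ w₂ w₃ (-(δ * A)) (δ * A') (δ * P) (-(δ * P')) (-(δ * Q)) (δ * Q')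
  hδ : δ = 1 ∨ δ = -1
  p2 : 2 ≤ P
  p2' : 2 ≤ P'
  q2 : 2 ≤ Q
  q2' : 2 ≤ Q'
  pa : P ≤ A
  qa : Q ≤ A'
  qa' : Q' ≤ A
  pa' : P' ≤ A'
  w10 : ∀ a, 0 ≤ w₁ a
  w20 : ∀ a, 0 ≤ w₂ a
  w13 : ∀ a, w₁ a ≤ w₃ a
  w23 : ∀ a, w₂ a ≤ w₃ a
  o1 : okv Bg C x₁ w₁
  o2 : okv Bg C x₂ w₂
  o3 : okv Bg C x₃ w₃

variable {Bg : (Fin 2 → ℤ) → Prop} {C : Set (F × (Fin 2 → ℤ))} {h : HS F} {i j k : Fin 3}
    {x₁ x₂ x₃ : F} {w₁ w₂ w₃ : Fin 2 → ℤ} {A A' P P' Q Q' δ : ℤ}

theorem WildAt.swap (W : WildAt Bg C h i j k x₁ x₂ x₃ w₁ w₂ w₃ A A' P P' Q Q' δ) :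
    WildAt Bg C h j i k x₂ x₁ x₃ w₂ w₁ w₃ A' A Q Q' P P' (-δ) where
  H := W.H.swap.cast rfl rfl rfl (fun _ => rfl) (fun _ => rfl) (fun _ => rfl)
    (by ring) (by ring) (by ring) (by ring) (by ring) (by ring)
  hδ := by rcases W.hδ with h | h <;> simp [h]
  p2 := W.q2
  p2' := W.q2'
  q2 := W.p2
  q2' := W.p2'
  pa := W.qa
  qa := W.pa
  qa' := W.pa'
  pa' := W.qa'
  w10 := W.w20
  w20 := W.w10
  w13 := W.w23
  w23 := W.w13
  o1 := W.o2
  o2 := W.o1
  o3 := W.o3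

/-- the wild region is closed under mutation at a position different from the last one -/
theorem WildAt.step (W : WildAt Bg C h i j k x₁ x₂ x₃ w₁ w₂ w₃ A A' P P' Q Q' δ)
    (hb : Bg fun a => max (A' * w₂ a) (P' * w₃ a) - w₁ a) :
    ∃ (x₀ : F), WildAt Bg C (h.mut i) j k i x₂ x₃ x₀ w₂ w₃
      (fun a => max (A' * w₂ a) (P' * w₃ a) - w₁ a)
      (A' * P - Q) (P' * A - Q') A' A P' P (-δ) := by
  have hA : 2 ≤ A := le_trans W.p2 W.pa
  have hA' : 2 ≤ A' := le_trans W.p2' W.pa'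
  have e1 : (max (δ * A') 0 * max (-(δ * A)) 0 - max (-(δ * A')) 0 * max (-(-(δ * A))) 0) = 0 := by
    rcases W.hδ with hδ | hδ <;> subst hδ
    · rw [max_eq_right (by omega : -(1 * A) ≤ 0), max_eq_right (by omega : -(1 * A') ≤ 0)]; ring
    · rw [max_eq_right (by omega : (-1 * A') ≤ 0), max_eq_right (by omega : -(-(-1 * A)) ≤ 0)]; ring
  have e2 : (max (-(δ * P')) 0 * max (δ * P) 0 - max (-(-(δ * P'))) 0 * max (-(δ * P)) 0) = 0 := by
    have := W.p2; have := W.p2'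
    rcases W.hδ with hδ | hδ <;> subst hδ
    · rw [max_eq_right (by omega : -(1 * P') ≤ 0), max_eq_right (by omega : -(1 * P) ≤ 0)]; ring
    · rw [max_eq_right (by omega : (-1 * P) ≤ 0), max_eq_right (by omega : -(-(-1 * P')) ≤ 0)]; ring
  have H1 := At.mut1 W.H e1 e2
  have hw : ∀ a, max (w₂ a * max (δ * A') 0 + w₃ a * max (-(δ * P')) 0)
        (w₂ a * max (-(δ * A')) 0 + w₃ a * max (-(-(δ * P'))) 0) - w₁ a
        = max (A' * w₂ a) (P' * w₃ a) - w₁ a := by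
    intro a
    have := W.p2'
    rcases W.hδ with hδ | hδ <;> subst hδ
    · rw [max_eq_left (by omega : 0 ≤ 1 * A'), max_eq_right (by omega : -(1 * P') ≤ 0),
        max_eq_right (by omega : -(1 * A') ≤ 0), max_eq_left (by omega : 0 ≤ -(-(1 * P')))]
      congr 2 <;> ring
    · rw [max_eq_right (by omega : -1 * A' ≤ 0), max_eq_left (by omega : 0 ≤ -(-1 * P')),
        max_eq_left (by omega : 0 ≤ -(-1 * A')), max_eq_right (by omega : -(-(-1 * P')) ≤ 0),
        max_comm]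
      congr 2 <;> ring
  have hw3 : ∀ a, w₃ a ≤ P' * w₃ a - w₁ a := by
    intro a
    have h1 := W.w13 a; have h2 := W.w10 a; have h3 := W.p2'
    nlinarith
  have hw4 : ∀ a, w₃ a ≤ max (A' * w₂ a) (P' * w₃ a) - w₁ a := by
    intro a
    have := hw3 a
    have := le_max_right (A' * w₂ a) (P' * w₃ a)
    omega
  refine ⟨_, H1.rot.rot.cast rfl rfl rfl (fun _ => rfl) (fun _ => rfl) hw
    ?_ ?_ ?_ ?_ ?_ ?_, ?_, ?_, ?_, ?_, ?_, ?_, ?_, ?_, ?_, W.w20, ?_, ?_, ?_, W.o2, W.o3, ?_⟩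
  · rcases W.hδ with hδ | hδ <;> subst hδ
    · have := W.p2; have := W.p2'
      rw [max_eq_left (by omega : 0 ≤ 1 * A'), max_eq_left (by omega : 0 ≤ 1 * P),
        max_eq_right (by omega : -(1 * A') ≤ 0)]; ring
    · have := W.p2; have := W.p2'
      rw [max_eq_right (by omega : -1 * A' ≤ 0), max_eq_left (by omega : 0 ≤ -(-1 * A')),
        max_eq_left (by omega : 0 ≤ -(-1 * P))]; ring
  · rcases W.hδ with hδ | hδ <;> subst hδ
    · have := W.p2; have := W.p2'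
      rw [max_eq_right (by omega : -(1 * P') ≤ 0), max_eq_left (by omega : 0 ≤ -(-(1 * P'))),
        max_eq_left (by omega : 0 ≤ -(-(1 * A)))]; ring
    · have := W.p2; have := W.p2'
      rw [max_eq_left (by omega : 0 ≤ -(-1 * P')), max_eq_left (by omega : 0 ≤ -(-1 * A)),
        max_eq_right (by omega : -(-(-1 * P')) ≤ 0)]; ring
  · ring
  · ring
  · ring
  · ring
  · rcases W.hδ with hδ | hδ <;> simp [hδ]
  · exact hA'
  · exact hA
  · exact W.p2'
  · exact W.p2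
  · have := W.qa; have := W.p2; nlinarith
  · have := W.qa'; have := W.p2'; nlinarith
  · have := W.qa; have := W.p2; nlinarith
  · have := W.qa'; have := W.p2'; nlinarith
  · intro a; have := W.w10 a; have := W.w13 a; omega
  · intro a; have h1 := hw4 a; have h3 := W.w23 a; omega
  · exact hw4
  · exact Or.inr hb

variable {pos : F → Prop} {D : Pent F}

/-- wild seed with last mutated position `k` -/
def WildS (Bg : (Fin 2 → ℤ) → Prop) (C : Set (F × (Fin 2 → ℤ))) (h : HS F) (k : Fin 3) : Prop :=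
  ∃ (i j : Fin 3) (x₁ x₂ x₃ : F) (w₁ w₂ w₃ : Fin 2 → ℤ) (A A' P P' Q Q' δ : ℤ),
    WildAt Bg C h i j k x₁ x₂ x₃ w₁ w₂ w₃ A A' P P' Q Q' δ ∧ Bg w₃

theorem WildS.step (hU : Up Bg) {l : Fin 3} (W : WildS Bg C h k) (hl : l ≠ k) :
    WildS Bg C (h.mut l) l := by
  obtain ⟨i, j, x₁, x₂, x₃, w₁, w₂, w₃, A, A', P, P', Q, Q', δ, W, h9⟩ := W
  have key : ∀ {i j x₁ x₂ w₁ w₂ A A' P P' Q Q' δ},
      WildAt Bg C h i j k x₁ x₂ x₃ w₁ w₂ w₃ A A' P P' Q Q' δ → WildS Bg C (h.mut i) i := by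
    intro i j x₁ x₂ w₁ w₂ A A' P P' Q Q' δ W
    have hb : Bg fun a => max (A' * w₂ a) (P' * w₃ a) - w₁ a := by
      refine hU _ _ h9 fun a => ?_
      have h1 := W.w13 a; have h2 := W.w10 a; have h3 := W.p2'
      have h4 := le_max_right (A' * w₂ a) (P' * w₃ a)
      nlinarith
    obtain ⟨x₀, W'⟩ := W.step hb
    exact ⟨_, _, _, _, _, _, _, _, _, _, _, _, _, _, _, W', hb⟩
  rcases cases3 i j k W.H.ij W.H.ik W.H.jk l with h | h | h
  · subst h; exact key W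
  · subst h; exact key W.swap
  · exact absurd h hl

theorem WildS.ok (W : WildS Bg C h k) (l : Fin 3) : okv Bg C (h.X l) (fun a => h.w a l) := by
  obtain ⟨i, j, x₁, x₂, x₃, w₁, w₂, w₃, A, A', P, P', Q, Q', δ, W, h9⟩ := W
  rcases cases3 i j k W.H.ij W.H.ik W.H.jk l with h | h | h
  · subst h; rw [W.H.X1, funext W.H.W1]; exact W.o1
  · subst h; rw [W.H.X2, funext W.H.W2]; exact W.o2
  · subst h; rw [W.H.X3, funext W.H.W3]; exact W.o3

theorem WildS.diag (W : WildS Bg C h k) (l : Fin 3) : h.B l l = 0 := by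
  obtain ⟨i, j, x₁, x₂, x₃, w₁, w₂, w₃, A, A', P, P', Q, Q', δ, W, h9⟩ := W
  exact W.H.diag l

/-- good pentagon of the chain -/
structure Good (pos : F → Prop) (Bg : (Fin 2 → ℤ) → Prop) (C : Set (F × (Fin 2 → ℤ)))
    (D : Pent F) : Prop where
  ok : D.Ok
  pu : pos D.u
  pv : pos D.v
  pS : pos D.S
  py : pos D.y
  pT : pos D.T
  pz : pos D.z
  i1 : ∀ a, D.wu a + D.wv a ≤ D.wz a
  i2 : Bg D.wy
  ou : okv Bg C D.u D.wu
  ov : okv Bg C D.v D.wv
  oS : okv Bg C D.S D.wS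
  oz : okv Bg C D.z D.wz

theorem Good.y2 (hG : Good pos Bg C D) (a : Fin 2) : 2 * D.wz a ≤ D.wy a := by
  have := hG.i1 a; have := hG.ok.w3 a; omega

theorem Good.oy (hG : Good pos Bg C D) : okv Bg C D.y D.wy := Or.inr hG.i2

theorem Good.oT (hU : Up Bg) (hG : Good pos Bg C D) : okv Bg C D.T D.wT := by
  right
  refine hU _ _ hG.i2 fun a => ?_
  have := hG.ok.wu0 a
  simp only [Pent.wT]; omega

theorem next_ok (hp : PosCone pos) (ok : D.Ok) (pu : pos D.u) (py : pos D.y) (pT : pos D.T)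
    (pz : pos D.z) (hw : ∀ a, 3 * D.wz a ≤ 5 * (D.wu a + D.wy a)) :
    D.next.Ok ∧ pos D.next.y ∧ pos D.next.T ∧ pos D.next.z := by
  have h1 : pos (1 + D.T ^ 2) := hp.add hp.one (hp.pow pT 2)
  have hz : pos ((1 + D.T ^ 2) / D.z) := hp.div h1 pz
  have h2 : pos (D.u + ((1 + D.T ^ 2) / D.z) ^ 3) := hp.add pu (hp.pow hz 3)
  have h3 : pos (1 + D.y * ((1 + D.T ^ 2) / D.z) ^ 3) :=
    hp.add hp.one (hp.mul py (hp.pow hz 3))
  exact ⟨ok.next (hp.ne h1) (hp.ne h2) (hp.ne h3) hw, hp.div h2 pT, hp.div h3 pT, hz⟩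

theorem Good.next (hp : PosCone pos) (hU : Up Bg) (hG : Good pos Bg C D) :
    Good pos Bg C D.next := by
  have hw : ∀ a, 3 * D.wz a ≤ 5 * (D.wu a + D.wy a) := by
    intro a
    have := hG.y2 a; have := hG.ok.wu0 a; have := hG.ok.wz0 a; omega
  obtain ⟨ok, py, pT, pz⟩ := next_ok hp hG.ok hG.pu hG.py hG.pT hG.pz hw
  exact {
    ok := ok
    pu := hG.py
    pv := hG.pu
    pS := hG.pT
    py := py
    pT := pT
    pz := pz
    i1 := by
      intro a
      have := hG.y2 a; have := hG.ok.wu0 a; have := hG.ok.wz0 a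
      simp only [Pent.next]; omega
    i2 := by
      refine hU _ _ hG.i2 fun a => ?_
      have := hG.y2 a; have := hG.ok.wu0 a; have := hG.ok.wz0 a
      simp only [Pent.next]; omega
    ou := hG.oy
    ov := hG.ou
    oS := by
      have : D.next.wS = D.wT := by funext a; simp [Pent.next, Pent.wS, Pent.wT, add_comm]
      rw [this]; exact hG.oT hU
    oz := by
      right
      refine hU _ _ hG.i2 fun a => ?_
      have := hG.y2 a; have := hG.ok.wu0 a; have := hG.ok.wz0 a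
      simp only [Pent.next]; omega }

/-- the exit from a good pentagon is wild -/
theorem Good.exit (hU : Up Bg) (hG : Good pos Bg C D) (H : Sh5 D h i j k) :
    WildS Bg C (h.mut k) k := by
  have H' := Sh5.mk hG.ok H
  have key : ∀ a, D.wy a + D.wz a ≤ max (2 * D.wy a) (2 * D.wv a) - D.wz a ∧
      D.wv a ≤ max (2 * D.wy a) (2 * D.wv a) - D.wz a := by
    intro a
    have := hG.y2 a; have := hG.i1 a; have := hG.ok.wu0 a; have := hG.ok.wz0 a
    have := hG.ok.wv0 a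
    omega
  have hz := hG.ok.wz0
  have hB : Bg (fun a => max (2 * D.wy a) (2 * D.wv a) - D.wz a) := by
    refine hU _ _ hG.i2 fun a => ?_
    have := key a; have := hz a; omega
  refine ⟨i, j, _, _, _, _, _, _, 5, 5, 2, 3, 2, 3, D.e, ⟨H'.cast rfl rfl rfl (fun _ => rfl)
    (fun _ => rfl) (fun _ => rfl) (by ring) (by ring) (by ring) (by ring) (by ring) (by ring),
    hG.ok.e1, by norm_num, by norm_num, by norm_num, by norm_num, by norm_num, by norm_num,
    by norm_num, by norm_num, hG.ok.wy0, hG.ok.wv0, ?_, ?_, hG.oy, hG.ov, Or.inr hB⟩, hB⟩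
  · intro a; have := key a; have := hz a; beta_reduce; omega
  · intro a; exact (key a).2

/-- the core pentagon -/
structure Base (pos : F → Prop) (Bg : (Fin 2 → ℤ) → Prop) (C : Set (F × (Fin 2 → ℤ)))
    (D : Pent F) : Prop where
  ok : D.Ok
  pu : pos D.u
  pv : pos D.v
  pS : pos D.S
  py : pos D.y
  pT : pos D.T
  pz : pos D.z
  wu : ∀ a, D.wu a = 1
  wz : ∀ a, D.wz a = 1
  wvy : ∀ a, (D.wv a = 0 ∧ D.wy a = 2) ∨ (D.wv a = 2 ∧ D.wy a = 0)
  b1 : Bg fun a => max (5 * D.wv a) 9 - D.wy a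
  b2 : Bg fun a => max (5 * D.wy a) 9 - D.wv a
  b3 : Bg fun a => 2 + 5 * D.wy a
  b4 : Bg fun a => 2 + 5 * D.wv a
  ou : okv Bg C D.u D.wu
  ov : okv Bg C D.v D.wv
  oS : okv Bg C D.S D.wS
  oy : okv Bg C D.y D.wy
  oT : okv Bg C D.T D.wT
  oz : okv Bg C D.z D.wz
  on : okv Bg C D.next.z D.next.wz
  on' : okv Bg C D.flip.next.z D.flip.next.wz
  oR : okv Bg C ((D.v ^ 2 + D.y ^ 2) / D.z) (fun a => max (2 * D.wy a) (2 * D.wv a) - D.wz a)

theorem Base.flip (hB : Base pos Bg C D) : Base pos Bg C D.flip where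
  ok := hB.ok.flip
  pu := hB.pu
  pv := hB.py
  pS := hB.pT
  py := hB.pv
  pT := hB.pS
  pz := hB.pz
  wu := hB.wu
  wz := hB.wz
  wvy := by intro a; rcases hB.wvy a with h | h <;> simp only [Pent.flip] <;> omega
  b1 := hB.b2
  b2 := hB.b1
  b3 := hB.b4
  b4 := hB.b3
  ou := hB.ou
  ov := hB.oy
  oS := hB.oT
  oy := hB.ov
  oT := hB.oS
  oz := hB.oz
  on := hB.on'
  on' := by rw [Pent.flip_flip]; exact hB.on
  oR := by
    have h := hB.oR
    simp only [Pent.flip]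
    rw [add_comm]
    have : (fun a => max (2 * D.wv a) (2 * D.wy a) - D.wz a)
      = (fun a => max (2 * D.wy a) (2 * D.wv a) - D.wz a) := by
      funext a; rw [max_comm]
    rw [this]; exact h

theorem Base.good (hp : PosCone pos) (hU : Up Bg) (hB : Base pos Bg C D) :
    Good pos Bg C D.next := by
  have hw : ∀ a, 3 * D.wz a ≤ 5 * (D.wu a + D.wy a) := by
    intro a
    have := hB.wu a; have := hB.wz a; have := hB.ok.wy0 a; omega
  obtain ⟨ok, py, pT, pz⟩ := next_ok hp hB.ok hB.pu hB.py hB.pT hB.pz hw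
  exact {
    ok := ok
    pu := hB.py
    pv := hB.pu
    pS := hB.pT
    py := py
    pT := pT
    pz := pz
    i1 := by
      intro a
      have := hB.wu a; have := hB.wz a; have := hB.ok.wy0 a
      simp only [Pent.next]; omega
    i2 := by
      refine hU _ _ hB.b3 fun a => ?_
      have := hB.wu a; have := hB.wz a
      simp only [Pent.next]; omega
    ou := hB.oy
    ov := hB.ou
    oS := by
      have : D.next.wS = D.wT := by funext a; simp [Pent.next, Pent.wS, Pent.wT, add_comm]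
      rw [this]; exact hB.oT
    oz := hB.on }

/-- mutations of the exit of the core pentagon are wild -/
theorem Base.exit (hB : Base pos Bg C D) (H : Sh5 D h i j k) :
    WildS Bg C ((h.mut k).mut i) i ∧ WildS Bg C ((h.mut k).mut j) j := by
  have H' := Sh5.mk hB.ok H
  have hw3 : ∀ a, max (2 * D.wy a) (2 * D.wv a) - D.wz a = 3 := by
    intro a
    have := hB.wvy a; have := hB.wz a; omega
  have W : WildAt Bg C (h.mut k) i j k D.y D.v ((D.v ^ 2 + D.y ^ 2) / D.z) D.wy D.wv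
      (fun a => max (2 * D.wy a) (2 * D.wv a) - D.wz a) 5 5 2 3 2 3 D.e := by
    refine ⟨H'.cast rfl rfl rfl (fun _ => rfl)
      (fun _ => rfl) (fun _ => rfl) (by ring) (by ring) (by ring) (by ring) (by ring) (by ring),
      hB.ok.e1, by norm_num, by norm_num, by norm_num, by norm_num, by norm_num, by norm_num,
      by norm_num, by norm_num, hB.ok.wy0, hB.ok.wv0, ?_, ?_, hB.oy, hB.ov, hB.oR⟩
    · intro a; have := hw3 a; have := hB.wvy a; beta_reduce; omega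
    · intro a; have := hw3 a; have := hB.wvy a; beta_reduce; omega
  have c1 : Bg fun a => max (5 * D.wv a) (3 * (max (2 * D.wy a) (2 * D.wv a) - D.wz a)) - D.wy a := by
    have : (fun a => max (5 * D.wv a) (3 * (max (2 * D.wy a) (2 * D.wv a) - D.wz a)) - D.wy a)
        = fun a => max (5 * D.wv a) 9 - D.wy a := by funext a; rw [hw3 a]; norm_num
    rw [this]; exact hB.b1
  have c2 : Bg fun a => max (5 * D.wy a) (3 * (max (2 * D.wy a) (2 * D.wv a) - D.wz a)) - D.wv a := by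
    have : (fun a => max (5 * D.wy a) (3 * (max (2 * D.wy a) (2 * D.wv a) - D.wz a)) - D.wv a)
        = fun a => max (5 * D.wy a) 9 - D.wv a := by funext a; rw [hw3 a]; norm_num
    rw [this]; exact hB.b2
  constructor
  · obtain ⟨x₀, W'⟩ := W.step c1
    exact ⟨_, _, _, _, _, _, _, _, _, _, _, _, _, _, _, W', c1⟩
  · obtain ⟨x₀, W'⟩ := W.swap.step c2
    exact ⟨_, _, _, _, _, _, _, _, _, _, _, _, _, _, _, W', c2⟩

inductive WF (pos : F → Prop) (Bg : (Fin 2 → ℤ) → Prop) (C : Set (F × (Fin 2 → ℤ)))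
    (D₀ : Pent F) : HS F → Fin 3 → Prop
  | base (h : HS F) (k : Fin 3) : (∀ l, pos (h.X l)) → (∀ l, h.B l l = 0) →
      (TC pos D₀ h ∨ ∃ D, Chain D₀ D ∧ InPent D h) → WildS Bg C (h.mut k) k →
      WF pos Bg C D₀ (h.mut k) k
  | step (h : HS F) (k l : Fin 3) : l ≠ k → (∀ l, pos (h.X l)) → WF pos Bg C D₀ h k →
      WF pos Bg C D₀ (h.mut l) l

def Inv (pos : F → Prop) (Bg : (Fin 2 → ℤ) → Prop) (C : Set (F × (Fin 2 → ℤ))) (D₀ : Pent F)
    (h : HS F) : Prop :=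
  (∀ l, pos (h.X l)) ∧ (InPent D₀ h ∨ TC pos D₀ h ∨ (∃ D, Chain D₀ D ∧ InPent D h) ∨
    ∃ k, WF pos Bg C D₀ h k)

variable {D₀ : Pent F}

theorem chain_good (hp : PosCone pos) (hU : Up Bg) (hB : Base pos Bg C D₀) (hc : Chain D₀ D) :
    Good pos Bg C D := by
  induction hc with
  | base1 => exact hB.good hp hU
  | base2 => exact hB.flip.good hp hU
  | step D _ ih => exact ih.next hp hU

theorem WF.wild (hU : Up Bg) (hW : WF pos Bg C D₀ h k) : WildS Bg C h k := by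
  induction hW with
  | base h k _ _ _ hW => exact hW
  | step h k l hl _ _ ih => exact ih.step hU hl

theorem Inv.mut (hp : PosCone pos) (hU : Up Bg) (hB : Base pos Bg C D₀)
    (H : Inv pos Bg C D₀ h) (l : Fin 3) : Inv pos Bg C D₀ (h.mut l) := by
  obtain ⟨hx, H⟩ := H
  refine ⟨fun i => hp.mut h hx l i, ?_⟩
  rcases H with H | H | ⟨D, hc, H⟩ | ⟨k, H⟩
  · rcases H.move hB.ok l with H' | H' | ⟨i, j, H'⟩ | H'
    · exact .inl H'
    · exact .inr (.inr (.inl ⟨_, .base1, H'⟩))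
    · exact .inr (.inl ⟨h, i, j, l, hx, H', rfl⟩)
    · refine .inr (.inr (.inl ⟨_, .base2, ?_⟩))
      rcases H' with ⟨i, j, H'⟩ | ⟨i, j, H'⟩
      · exact ⟨_, _, _, .inr (.inl (H'.flip.mk hB.flip.ok))⟩
      · exact ⟨_, _, _, .inl (H'.flip.mk hB.flip.ok)⟩
  · have hT := H
    obtain ⟨h0, i, j, k, h0x, H', rfl⟩ := H
    have hd : ∀ l, (h0.mut k).B l l = 0 := fun l => (Sh5.mk hB.ok H').diag l
    obtain ⟨W1, W2⟩ := hB.exit H'
    rcases cases3 i j k (At.ij H') (At.ik H') (At.jk H') l with h | h | h <;> subst h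
    · exact .inr (.inr (.inr ⟨_, .base _ _ hx hd (.inl hT) W1⟩))
    · exact .inr (.inr (.inr ⟨_, .base _ _ hx hd (.inl hT) W2⟩))
    · rw [HS.mut_mut h0 l (hp.ne (h0x l)) (hp.ne (hx l)) (At.diag H' l)]
      exact .inl ⟨_, _, _, .inr (.inr (.inr (.inr H')))⟩
  · have hG := chain_good hp hU hB hc
    rcases H.move hG.ok l with H' | H' | ⟨i, j, H'⟩ | H'
    · exact .inr (.inr (.inl ⟨_, hc, H'⟩))
    · exact .inr (.inr (.inl ⟨_, hc.step, H'⟩))
    · exact .inr (.inr (.inr ⟨_, .base _ _ hx H.diag (.inr ⟨_, hc, H⟩) (hG.exit hU H')⟩))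
    · cases hc with
      | base1 => exact .inl (CB.back hp hB.ok hB.pT l H')
      | base2 =>
        have := (CB.back hp hB.flip.ok hB.flip.pT l H').flip
        rw [Pent.flip_flip] at this
        exact .inl this
      | step D hc =>
        have hG' := chain_good hp hU hB hc
        exact .inr (.inr (.inl ⟨_, hc, CB.back hp hG'.ok hG'.pT l H'⟩))
  · by_cases hl : l = k
    · subst hl
      cases H with
      | base h k hx' hd H W =>
        rw [HS.mut_mut h l (hp.ne (hx' l)) (hp.ne (hx l)) (hd l)]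
        rcases H with H | H
        · exact .inr (.inl H)
        · exact .inr (.inr (.inl H))
      | step h k l' hl hx' H =>
        rw [HS.mut_mut h l (hp.ne (hx' l)) (hp.ne (hx l)) ((H.wild hU).diag l)]
        exact .inr (.inr (.inr ⟨_, H⟩))
    · exact .inr (.inr (.inr ⟨_, .step _ _ _ hl hx H⟩))

theorem at_okv {x₁ x₂ x₃ : F} {w₁ w₂ w₃ : Fin 2 → ℤ}
    {b₁₂ b₂₁ b₁₃ b₃₁ b₂₃ b₃₂ : ℤ} (H : At h i j k x₁ x₂ x₃ w₁ w₂ w₃ b₁₂ b₂₁ b₁₃ b₃₁ b₂₃ b₃₂)
    (h1 : okv Bg C x₁ w₁) (h2 : okv Bg C x₂ w₂) (h3 : okv Bg C x₃ w₃)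
    (l : Fin 3) : okv Bg C (h.X l) (fun a => h.w a l) := by
  rcases cases3 i j k H.ij H.ik H.jk l with h | h | h
  · subst h; rw [H.X1, funext H.W1]; exact h1
  · subst h; rw [H.X2, funext H.W2]; exact h2
  · subst h; rw [H.X3, funext H.W3]; exact h3

theorem inPent_okv (H : InPent D h) (ou : okv Bg C D.u D.wu) (ov : okv Bg C D.v D.wv)
    (oS : okv Bg C D.S D.wS) (oy : okv Bg C D.y D.wy) (oT : okv Bg C D.T D.wT)
    (oz : okv Bg C D.z D.wz) (l : Fin 3) : okv Bg C (h.X l) (fun a => h.w a l) := by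
  obtain ⟨i, j, k, H | H | H | H | H⟩ := H
  · exact at_okv H ov oS oz l
  · exact at_okv H ou oS oz l
  · exact at_okv H ou oT oz l
  · exact at_okv H oy oT oz l
  · exact at_okv H oy ov oz l

theorem Inv.okv (hp : PosCone pos) (hU : Up Bg) (hB : Base pos Bg C D₀) (H : Inv pos Bg C D₀ h)
    (l : Fin 3) : SP.okv Bg C (h.X l) (fun a => h.w a l) := by
  obtain ⟨hx, H | H | ⟨D, hc, H⟩ | ⟨k, H⟩⟩ := H
  · exact inPent_okv H hB.ou hB.ov hB.oS hB.oy hB.oT hB.oz l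
  · obtain ⟨h0, i, j, k, h0x, H', rfl⟩ := H
    exact at_okv (Sh5.mk hB.ok H') hB.oy hB.ov hB.oR l
  · have hG := chain_good hp hU hB hc
    exact inPent_okv H hG.ou hG.ov hG.oS hG.oy (hG.oT hU) hG.oz l
  · exact (H.wild hU).ok l

theorem Inv.diag (hU : Up Bg) (hB : Base pos Bg C D₀) (H : Inv pos Bg C D₀ h) (l : Fin 3) :
    h.B l l = 0 := by
  obtain ⟨hx, H | H | ⟨D, hc, H⟩ | ⟨k, H⟩⟩ := H
  · exact H.diag l
  · obtain ⟨h0, i, j, k, h0x, H', rfl⟩ := H
    exact (Sh5.mk hB.ok H').diag l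
  · exact H.diag l
  · exact (H.wild hU).diag l

end Pool.Agent.Y945.SP
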