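import Pool.Agent.Y945.SP.Grade

set_option linter.unusedSectionVars false
set_option linter.unusedSimpArgs false

namespace Pool.Agent.Y945.SP

attribute [-instance] DivisionRing.toRatAlgebra

open MvPolynomial
open AddMonoidAlgebra (single single_mul_single single_pow)

/-- exponents -/
abbrev GG : Type := Ix → ℤ
/-- Laurent polynomials in the initial extended cluster -/
abbrev LL : Type := AddMonoidAlgebra ℚ GG

/-- Laurent monomials in the field -/
noncomputable def xm : Multiplicative GG →* K where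
  toFun g := ∏ i, xk i ^ (g.toAdd i)
  map_one' := by simp
  map_mul' g h := by simp [zpow_add₀ (xk_ne _), Finset.prod_mul_distrib]

/-- the inclusion of the Laurent polynomials -/
noncomputable def J : LL →ₐ[ℚ] K := AddMonoidAlgebra.lift ℚ K GG xm

theorem J_single (g : GG) (r : ℚ) : J (single g r) = r • ∏ i, xk i ^ g i := by
  rw [J, AddMonoidAlgebra.lift_single]
  rfl

/-- polynomials as Laurent polynomials -/
noncomputable def ip : Rg →ₐ[ℚ] LL := aeval (fun i => (single (Pi.single i 1) 1 : LL))

theorem J_gen (i : Ix) : J (single (Pi.single i 1) 1) = xk i := by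
  rw [J_single, one_smul, Finset.prod_eq_single i]
  · simp
  · intro j _ hj; simp [Pi.single_eq_of_ne hj]
  · simp

theorem J_ip (p : Rg) : J (ip p) = algebraMap Rg K p := by
  have : J.comp ip = IsScalarTower.toAlgHom ℚ Rg K := by
    apply MvPolynomial.algHom_ext
    intro i
    rw [AlgHom.comp_apply, ip, aeval_X, J_gen]
    rfl
  exact DFunLike.congr_fun this p

theorem ip_mon (N : Ix → ℕ) : ip (∏ i, X i ^ N i) = single (fun i => (N i : ℤ)) 1 := by
  classical
  rw [map_prod]
  simp only [map_pow, ip, aeval_X, single_pow, one_pow]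
  rw [AddMonoidAlgebra.prod_single, Finset.prod_const_one]
  congr 1
  funext j
  rw [Finset.sum_apply, Finset.sum_eq_single j]
  · simp
  · intro i _ hi; simp [Pi.single_eq_of_ne (Ne.symm hi)]
  · simp

theorem exists_num (f : LL) : ∃ (N : Ix → ℕ) (p : Rg),
    f * single (fun i => (N i : ℤ)) 1 = ip p := by
  induction f using AddMonoidAlgebra.induction_linear with
  | zero => exact ⟨0, 0, by simp⟩
  | add f g hf hg =>
    obtain ⟨N, p, h⟩ := hf
    obtain ⟨N', p', h'⟩ := hg
    refine ⟨N + N', p * ∏ i, X i ^ N' i + p' * ∏ i, X i ^ N i, ?_⟩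
    have e : (single (fun i => ((N + N') i : ℤ)) 1 : LL) =
        single (fun i => (N i : ℤ)) 1 * single (fun i => (N' i : ℤ)) 1 := by
      rw [single_mul_single, one_mul]
      congr 1
    rw [map_add, map_mul, map_mul, ip_mon, ip_mon, ← h, ← h', e]
    ring
  | single g r =>
    refine ⟨fun i => (-(g i)).toNat, C r * ∏ i, X i ^ (g i).toNat, ?_⟩
    rw [map_mul, ip_mon, ← MvPolynomial.algebraMap_eq, AlgHom.commutes, ← Algebra.smul_def,
      AddMonoidAlgebra.smul_single, single_mul_single]
    simp only [smul_eq_mul, mul_one]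
    congr 1
    funext i
    show g i + ((-(g i)).toNat : ℤ) = ((g i).toNat : ℤ)
    omega

theorem J_inj : Function.Injective J := by
  rw [injective_iff_map_eq_zero]
  intro f hf
  obtain ⟨N, p, h⟩ := exists_num f
  have h1 : algebraMap Rg K p = 0 := by
    rw [← J_ip, ← h, map_mul, hf, zero_mul]
  have h2 : p = 0 := by
    apply IsFractionRing.injective Rg K
    rw [h1, map_zero]
  rw [h2, map_zero] at h
  have h3 : f * single (fun i => (N i : ℤ)) 1 * single (fun i => -(N i : ℤ)) 1 = f := by
    rw [mul_assoc, single_mul_single, one_mul]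
    have : ((fun i => (N i : ℤ)) + fun i => -(N i : ℤ) : GG) = 0 := by
      funext i; simp
    rw [this, ← AddMonoidAlgebra.one_def, mul_one]
  rw [← h3, h, zero_mul]

/-! ### homogeneity -/

/-- the scaling factor of a Laurent monomial -/
noncomputable def ch (g : GG) : ℚ := ∏ i, mu i ^ g i

/-- the scaling of Laurent polynomials -/
noncomputable def Sc : LL →ₗ[ℚ] LL :=
  (AddMonoidAlgebra.lift ℚ LL GG
    { toFun := fun g => single g.toAdd (ch g.toAdd)
      map_one' := by simp [ch, AddMonoidAlgebra.one_def]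
      map_mul' := fun g h => by
        rw [single_mul_single]
        simp [ch, zpow_add₀ (mu_ne _), Finset.prod_mul_distrib] }).toLinearMap

theorem Sc_single (g : GG) (r : ℚ) : Sc (single g r) = single g (r * ch g) := by
  rw [Sc, AlgHom.toLinearMap_apply, AddMonoidAlgebra.lift_single]
  show r • (single g (ch g) : LL) = _
  rw [AddMonoidAlgebra.smul_single, smul_eq_mul]

theorem Sc_coeff (f : LL) (g : GG) : (Sc f).coeff g = ch g * f.coeff g := by
  classical
  induction f using AddMonoidAlgebra.induction_linear with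
  | zero => simp
  | add f f' hf hg =>
    rw [map_add, AddMonoidAlgebra.coeff_add, AddMonoidAlgebra.coeff_add, Finsupp.add_apply,
      Finsupp.add_apply, hf, hg, mul_add]
  | single h r =>
    rw [Sc_single, AddMonoidAlgebra.coeff_single, AddMonoidAlgebra.coeff_single,
      Finsupp.single_apply, Finsupp.single_apply]
    split_ifs with h0
    · rw [h0]; ring
    · ring

theorem J_Sc (f : LL) : J (Sc f) = phi (J f) := by
  induction f using AddMonoidAlgebra.induction_linear with
  | zero => simp
  | add f f' hf hg => rw [map_add, map_add, map_add, map_add, hf, hg]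
  | single g r =>
    rw [Sc_single, J_single, J_single, Algebra.smul_def, Algebra.smul_def, map_mul phi, phi_const,
      map_prod, map_mul, mul_assoc]
    congr 1
    simp only [map_zpow₀, phi_x, mul_zpow, Finset.prod_mul_distrib, ch, map_prod]

theorem ch_of_eig {f : LL} {c : ℚ} (h : phi (J f) = c • J f) {g : GG} (hg : f.coeff g ≠ 0) :
    ch g = c := by
  rw [← J_Sc, ← map_smul] at h
  have h1 := J_inj h
  have h2 := congrArg (fun z : LL => z.coeff g) h1
  simp only [Sc_coeff, AddMonoidAlgebra.coeff_smul, Finsupp.smul_apply, smul_eq_mul] at h2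
  exact mul_right_cancel₀ hg h2

theorem eig_of_ch {f : LL} {c : ℚ} (h : ∀ g, f.coeff g ≠ 0 → ch g = c) :
    phi (J f) = c • J f := by
  rw [← J_Sc, ← map_smul]
  congr 1
  apply AddMonoidAlgebra.ext
  ext g
  rw [Sc_coeff, AddMonoidAlgebra.coeff_smul, Finsupp.smul_apply, smul_eq_mul]
  by_cases hg : f.coeff g = 0
  · rw [hg]; ring
  · rw [h g hg]

/-! ### Laurent polynomials with nonnegative integer coefficients -/

/-- Laurent polynomials with coefficients in `ℕ` -/
noncomputable def NN : Subsemiring LL := Subsemiring.closure (Set.range fun g : GG => (single g 1 : LL))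

theorem single_NN (g : GG) : (single g 1 : LL) ∈ NN := Subsemiring.subset_closure ⟨g, rfl⟩

theorem NN_nonneg {f : LL} (hf : f ∈ NN) (g : GG) : 0 ≤ f.coeff g := by
  classical
  have h : f ∈ AddSubmonoid.closure (Submonoid.closure (Set.range fun g : GG => (single g 1 : LL)) :
      Set LL) := Subsemiring.mem_closure_iff.1 hf
  induction h using AddSubmonoid.closure_induction with
  | mem f hf' =>
    have : ∃ g, f = single g 1 := by
      induction hf' using Submonoid.closure_induction with
      | mem f hf' => obtain ⟨g, rfl⟩ := hf'; exact ⟨g, rfl⟩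
      | one => exact ⟨0, rfl⟩
      | mul f f' _ _ h h' =>
        obtain ⟨g, rfl⟩ := h (Subsemiring.mem_closure_iff.2 (AddSubmonoid.subset_closure ‹_›))
        obtain ⟨g', rfl⟩ := h' (Subsemiring.mem_closure_iff.2 (AddSubmonoid.subset_closure ‹_›))
        exact ⟨g + g', by rw [single_mul_single, one_mul]⟩
    obtain ⟨h, rfl⟩ := this
    rw [AddMonoidAlgebra.coeff_single, Finsupp.single_apply]
    split_ifs <;> norm_num
  | zero => simp
  | add f f' h1 h2 ih ih' =>
    rw [AddMonoidAlgebra.coeff_add, Finsupp.add_apply]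
    exact add_nonneg (ih (Subsemiring.mem_closure_iff.2 h1)) (ih' (Subsemiring.mem_closure_iff.2 h2))

/-- the monomials in the initial extended cluster -/
noncomputable def SM : Submonoid K := Submonoid.closure (Set.range xk)

theorem SM_mem {z : K} (hz : z ∈ SM) : z ∈ clusterMonomials Bm := by
  refine ⟨initialSeed Bm, .refl, ?_⟩
  induction hz using Submonoid.closure_induction with
  | mem z hz =>
    obtain ⟨i, rfl⟩ := hz
    refine ⟨Pi.single i 1, ?_⟩
    rw [Finset.prod_eq_single i]
    · simp; rfl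
    · intro j _ hj; simp [Pi.single_eq_of_ne hj]
    · simp
  | one => exact ⟨0, by simp⟩
  | mul z w _ _ h h' =>
    obtain ⟨e, rfl⟩ := h
    obtain ⟨e', rfl⟩ := h'
    exact ⟨e + e', by simp [pow_add, Finset.prod_mul_distrib]⟩

theorem mon_mem (N : Ix → ℕ) : ∏ i, xk i ^ N i ∈ SM :=
  prod_mem fun i _ => pow_mem (Submonoid.subset_closure (Set.mem_range_self i)) _

theorem J_mon (N : Ix → ℕ) : J (single (fun i => (N i : ℤ)) 1) = ∏ i, xk i ^ N i := by
  rw [J_single, one_smul]
  simp

/-- polynomials with coefficients in `ℕ` -/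
noncomputable def CM : Subsemiring K := Subsemiring.closure (Set.range xk)

theorem SM_le {z : K} (hz : z ∈ SM) : z ∈ CM :=
  Subsemiring.mem_closure_iff.2 (AddSubmonoid.subset_closure hz)

theorem NN_clear {f : LL} (hf : f ∈ NN) : ∃ N : Ix → ℕ, J f * ∏ i, xk i ^ N i ∈ CM := by
  induction hf using Subsemiring.closure_induction with
  | mem f hf =>
    obtain ⟨g, rfl⟩ := hf
    refine ⟨fun i => (-(g i)).toNat, ?_⟩
    have : J (single g 1) * ∏ i, xk i ^ (-(g i)).toNat = ∏ i, xk i ^ (g i).toNat := by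
      rw [J_single, one_smul, ← Finset.prod_mul_distrib]
      refine Finset.prod_congr rfl fun i _ => ?_
      rw [← zpow_natCast, ← zpow_natCast, ← zpow_add₀ (xk_ne i)]
      congr 1
      omega
    rw [this]
    exact SM_le (mon_mem _)
  | zero => exact ⟨0, by simp⟩
  | one => exact ⟨0, by simp⟩
  | add f f' _ _ h h' =>
    obtain ⟨N, h⟩ := h
    obtain ⟨N', h'⟩ := h'
    refine ⟨N + N', ?_⟩
    have := add_mem (mul_mem h (SM_le (mon_mem N'))) (mul_mem h' (SM_le (mon_mem N)))
    convert this using 1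
    rw [map_add]
    simp only [Pi.add_apply, pow_add, Finset.prod_mul_distrib]
    ring
  | mul f f' _ _ h h' =>
    obtain ⟨N, h⟩ := h
    obtain ⟨N', h'⟩ := h'
    refine ⟨N + N', ?_⟩
    have := mul_mem h h'
    convert this using 1
    rw [map_mul]
    simp only [Pi.add_apply, pow_add, Finset.prod_mul_distrib]
    ring

theorem CM_NN {z : K} (hz : z ∈ CM) : ∃ f ∈ NN, J f = z := by
  induction hz using Subsemiring.closure_induction with
  | mem z hz => obtain ⟨i, rfl⟩ := hz; exact ⟨_, single_NN _, J_gen i⟩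
  | zero => exact ⟨0, zero_mem _, map_zero _⟩
  | one => exact ⟨1, one_mem _, map_one _⟩
  | add z w _ _ h h' =>
    obtain ⟨f, hf, rfl⟩ := h
    obtain ⟨g, hg, rfl⟩ := h'
    exact ⟨f + g, add_mem hf hg, map_add _ _ _⟩
  | mul z w _ _ h h' =>
    obtain ⟨f, hf, rfl⟩ := h
    obtain ⟨g, hg, rfl⟩ := h'
    exact ⟨f * g, mul_mem hf hg, map_mul _ _ _⟩

theorem NN_of_clear {y : K} {N : Ix → ℕ} (h : y * ∏ i, xk i ^ N i ∈ CM) : ∃ f ∈ NN, J f = y := by
  obtain ⟨f, hf, h⟩ := CM_NN h
  refine ⟨f * single (fun i => -(N i : ℤ)) 1, mul_mem hf (single_NN _), ?_⟩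
  rw [map_mul, h, J_single, one_smul, mul_assoc, ← Finset.prod_mul_distrib]
  rw [Finset.prod_eq_one, mul_one]
  intro i _
  rw [← zpow_natCast, ← zpow_add₀ (xk_ne i)]
  simp

/-! ### the face property -/

section face

variable {V : Type} [AddCommGroup V]

theorem exists_coord {C S : Set V} (hS : S ⊆ C) {y : V} (hy : y ∈ AddSubmonoid.closure S) :
    ∃ f : C →₀ ℤ, (∀ c, 0 ≤ f c) ∧ (∀ c, f c ≠ 0 → (c : V) ∈ S) ∧
      Finsupp.linearCombination ℤ ((↑) : C → V) f = y := by
  classical
  induction hy using AddSubmonoid.closure_induction with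
  | mem c hc =>
    refine ⟨Finsupp.single ⟨c, hS hc⟩ 1, fun c' => ?_, fun c' h => ?_, by simp⟩
    · rw [Finsupp.single_apply]; split_ifs <;> norm_num
    · rw [Finsupp.single_apply] at h
      split_ifs at h with h0
      · rw [← h0]; exact hc
      · exact absurd rfl h
  | zero => exact ⟨0, by simp, by simp, by simp⟩
  | add a b _ _ ha hb =>
    obtain ⟨f, h1, h2, rfl⟩ := ha
    obtain ⟨g, h3, h4, rfl⟩ := hb
    refine ⟨f + g, fun c => add_nonneg (h1 c) (h3 c), fun c h => ?_, by rw [map_add]⟩
    by_cases h0 : f c = 0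
    · apply h4
      intro h5
      apply h
      rw [Finsupp.add_apply, h0, h5, add_zero]
    · exact h2 c h0

theorem of_coord {C S : Set V} {f : C →₀ ℤ} (h0 : ∀ c, 0 ≤ f c) (hs : ∀ c, f c ≠ 0 → (c : V) ∈ S) :
    Finsupp.linearCombination ℤ ((↑) : C → V) f ∈ AddSubmonoid.closure S := by
  rw [Finsupp.linearCombination_apply]
  refine sum_mem fun c hc => ?_
  have : f c • (c : V) = (f c).toNat • (c : V) := by
    rw [← natCast_zsmul, Int.toNat_of_nonneg (h0 c)]
  show f c • (c : V) ∈ _
  rw [this]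
  exact nsmul_mem (AddSubmonoid.subset_closure (hs c (Finsupp.mem_support_iff.1 hc))) _

theorem face {C S : Set V} (hli : LinearIndependent ℤ ((↑) : C → V)) (hS : S ⊆ C) {y w : V}
    (hy : y ∈ AddSubmonoid.closure C) (hw : w ∈ AddSubmonoid.closure C)
    (h : y + w ∈ AddSubmonoid.closure S) : y ∈ AddSubmonoid.closure S := by
  obtain ⟨f, f0, -, rfl⟩ := exists_coord (subset_refl C) hy
  obtain ⟨g, g0, -, rfl⟩ := exists_coord (subset_refl C) hw
  obtain ⟨k, k0, k1, k2⟩ := exists_coord hS h
  rw [← map_add] at k2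
  have e : k = f + g := hli k2
  refine of_coord f0 fun c hc => k1 c ?_
  rw [e, Finsupp.add_apply]
  have := f0 c
  have := g0 c
  omega

theorem choose_term {C : Set V} (hli : LinearIndependent ℤ ((↑) : C → V)) {b w T T' : V}
    (hb : b ∈ C) (hw : w ∈ AddSubmonoid.closure C) (hT : T ∈ AddSubmonoid.closure C)
    (hT' : T' ∈ AddSubmonoid.closure C) (h : b + w = T + T') :
    (∃ w' ∈ AddSubmonoid.closure C, T = b + w') ∨ ∃ w' ∈ AddSubmonoid.closure C, T' = b + w' := by
  classical
  obtain ⟨f, f0, -, rfl⟩ := exists_coord (subset_refl C) hw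
  obtain ⟨g, g0, -, rfl⟩ := exists_coord (subset_refl C) hT
  obtain ⟨g', g0', -, rfl⟩ := exists_coord (subset_refl C) hT'
  have hs : b = Finsupp.linearCombination ℤ ((↑) : C → V) (Finsupp.single ⟨b, hb⟩ 1) := by simp
  have e : Finsupp.single ⟨b, hb⟩ 1 + f = g + g' := by
    apply hli
    rw [map_add, map_add, ← hs, h]
  have e1 := DFunLike.congr_fun e ⟨b, hb⟩
  rw [Finsupp.add_apply, Finsupp.add_apply, Finsupp.single_eq_same] at e1
  have key : ∀ g : C →₀ ℤ, (∀ c, 0 ≤ g c) → 1 ≤ g ⟨b, hb⟩ →
      ∃ w' ∈ AddSubmonoid.closure C, Finsupp.linearCombination ℤ ((↑) : C → V) g = b + w' := by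
    intro g g0 g1
    refine ⟨Finsupp.linearCombination ℤ ((↑) : C → V) (g - Finsupp.single ⟨b, hb⟩ 1),
      of_coord (fun c => ?_) (fun c _ => c.2), ?_⟩
    · rw [Finsupp.sub_apply, Finsupp.single_apply]
      split_ifs with h0
      · rw [← h0]; omega
      · have := g0 c; omega
    · rw [map_sub, ← hs]
      abel
  have := f0 ⟨b, hb⟩
  have := g0 ⟨b, hb⟩
  have := g0' ⟨b, hb⟩
  by_cases h1 : 1 ≤ g ⟨b, hb⟩
  · exact Or.inl (key g g0 h1)
  · exact Or.inr (key g' g0' (by omega))

theorem choose_list {C : Set V} (hli : LinearIndependent ℤ ((↑) : C → V)) {b w : V}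
    (hb : b ∈ C) (hw : w ∈ AddSubmonoid.closure C) (l : List V)
    (hl : ∀ T ∈ l, T ∈ AddSubmonoid.closure C) (h : b + w = l.sum) :
    ∃ T ∈ l, ∃ w' ∈ AddSubmonoid.closure C, T = b + w' := by
  classical
  induction l generalizing w with
  | nil =>
    exfalso
    obtain ⟨f, f0, -, rfl⟩ := exists_coord (subset_refl C) hw
    have hs : b = Finsupp.linearCombination ℤ ((↑) : C → V) (Finsupp.single ⟨b, hb⟩ 1) := by simp
    have e : Finsupp.single ⟨b, hb⟩ 1 + f = 0 := by
      apply hli
      rw [map_add, ← hs, h, map_zero]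
      rfl
    have e1 := DFunLike.congr_fun e ⟨b, hb⟩
    rw [Finsupp.add_apply, Finsupp.single_eq_same, Finsupp.zero_apply] at e1
    have := f0 ⟨b, hb⟩
    omega
  | cons T l ih =>
    rw [List.sum_cons] at h
    rcases choose_term hli hb hw (hl T (by simp)) (list_sum_mem fun T' hT' => hl T' (by simp [hT']))
      h with ⟨w', hw', h'⟩ | ⟨w', hw', h'⟩
    · exact ⟨T, by simp, w', hw', h'⟩
    · obtain ⟨T', hT', h''⟩ := ih hw' (fun T' hT' => hl T' (by simp [hT'])) h'.symm
      exact ⟨T', by simp [hT'], h''⟩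

end face

end Pool.Agent.Y945.SP
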