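import Pool.Agent.Y945.SP.Inv
import Pool.Agent.Y945.CB.Core

set_option linter.unusedSectionVars false
set_option linter.unusedSimpArgs false

namespace Pool.Agent.Y945.SP

open Pool.Agent.Y945.CB (HS At PosCone Pent Sh1 Sh2 Sh3 Sh4 Sh5 cases3 Chain InPent TC
  E e0 e1 e2 CC P0 H0 H0_shape H0_gr E_gr key_identity Rel Gr)

variable {F : Type} [Field F]

/-- large weights -/
def Bg0 (w : Fin 2 → ℤ) : Prop :=
  1 ≤ w 0 ∧ 1 ≤ w 1 ∧ (12 ≤ w 0 ∨ 12 ≤ w 1 ∨ 17 ≤ w 0 + w 1)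

theorem up0 : Up Bg0 := by
  intro w w' h hw
  have h0 := hw 0; have h1 := hw 1
  obtain ⟨a, b, c⟩ := h
  exact ⟨by omega, by omega, by omega⟩

variable {a b t x y : F}

theorem base0 {pos : F → Prop} (hp : PosCone pos) (ha : pos a) (hb : pos b) (ht : pos t)
    (hx : pos x) (hy : pos y) : Base pos Bg0 (CC a b t x y) (P0 a b t x y) := by
  have ha' := hp.ne ha
  have hb' := hp.ne hb
  have ht' := hp.ne ht
  have hx' := hp.ne hx
  have hy' := hp.ne hy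
  have H := CB.base0 hp ha hb ht hx hy
  refine
  { ok := H.ok
    pu := H.pu
    pv := H.pv
    pS := H.pS
    py := H.py
    pT := H.pT
    pz := H.pz
    wu := fun _ => rfl
    wz := fun _ => rfl
    wvy := H.wvy
    b1 := by simp [Bg0, P0]
    b2 := by simp [Bg0, P0]
    b3 := by simp [Bg0, P0]
    b4 := by simp [Bg0, P0]
    ou := Or.inl ⟨3, ?_, ?_, ?_⟩
    ov := Or.inl ⟨0, ?_, ?_, ?_⟩
    oS := Or.inl ⟨4, ?_, ?_, ?_⟩
    oy := Or.inl ⟨1, ?_, ?_, ?_⟩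
    oT := Or.inl ⟨5, ?_, ?_, ?_⟩
    oz := Or.inl ⟨2, ?_, ?_, ?_⟩
    on := Or.inl ⟨7, ?_, ?_, ?_⟩
    on' := Or.inl ⟨6, ?_, ?_, ?_⟩
    oR := Or.inl ⟨8, ?_, ?_, ?_⟩ }
  all_goals try (simp [P0, Pent.wS, Pent.wT, Pent.next, Pent.flip, e0, e1]; done)
  · simp [P0, E]; field_simp
  · simp [P0, E]; field_simp
  · simp [P0, E, Pent.wS]; field_simp
  · simp [P0, E]; field_simp
  · simp [P0, E, Pent.wT]; field_simp
  · simp [P0, E]; field_simp
  · simp [P0, E, Pent.next]; field_simp; ring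
  · simp [P0, E, Pent.next, Pent.flip]; field_simp; ring
  · simp [P0, E]; field_simp

theorem H0_inv {pos : F → Prop} (hp : PosCone pos) (ha : pos a) (hb : pos b) (ht : pos t)
    (hx : pos x) (hy : pos y) : Inv pos Bg0 (CC a b t x y) (P0 a b t x y) (H0 a b t x y) := by
  refine ⟨?_, Or.inl ⟨_, _, _, .inr (.inr (.inr (.inr H0_shape)))⟩⟩
  have hB := base0 hp ha hb ht hx hy
  intro l
  fin_cases l
  · exact hB.pv
  · exact hB.py
  · exact hB.pz

/-- classification of the variables of a seed -/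
theorem var_class {pos : F → Prop} (hp : PosCone pos) (ha : pos a) (hb : pos b) (ht : pos t)
    {c : Fin 2 → F} (hx : pos (c 0)) (hy : pos (c 1)) {s : CB.Seed 3 2 F} {h : HS F}
    (R : Rel c s h) (I : Inv pos Bg0 (CC a b t (c 0) (c 1)) (P0 a b t (c 0) (c 1)) h)
    {f : F →+* F} {l m n : F} (G : Gr f l h) (h0 : f (c 0) = m * c 0) (h1 : f (c 1) = n * c 1)
    (k : Fin 3) :
    (∃ i, s.x (Sum.inl k) = E a b t (c 0) (c 1) i) ∨
    (s.x (Sum.inl k) ≠ 0 ∧ ∃ w : Fin 2 → ℤ, ∃ v : ℤ, Bg0 w ∧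
      f (s.x (Sum.inl k)) = m ^ w 0 * n ^ w 1 * l ^ v * s.x (Sum.inl k)) := by
  obtain ⟨v, hv, hX⟩ := G
  have hk := R.x k
  rcases I.okv hp up0 (base0 hp ha hb ht hx hy) k with ho | ho
  · left
    obtain ⟨i, hi, -, -⟩ := ho
    exact ⟨i, hk.trans hi⟩
  · right
    refine ⟨?_, fun a => h.w a k, v k, ho, ?_⟩
    · rw [hk]
      exact mul_ne_zero (hp.ne (I.1 k)) (mul_ne_zero (zpow_ne_zero _ (hp.ne hx))
        (zpow_ne_zero _ (hp.ne hy)))
    · rw [hk, map_mul, map_mul, map_zpow₀, map_zpow₀, hX k, h0, h1, mul_zpow,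
        mul_zpow]
      ring

theorem mem_of_at {c : Fin 2 → F} {s₀ s : CB.Seed 3 2 F} {h : HS F} (hs : CB.Reach s₀ s)
    (R : Rel c s h) {i : Fin 3} {X : F} {w0 w1 : ℤ} (hX : h.X i = X) (h0 : h.w 0 i = w0)
    (h1 : h.w 1 i = w1) :
    ∃ s, CB.Reach s₀ s ∧ ∃ k, X * (c 0 ^ w0 * c 1 ^ w1) = s.x (Sum.inl k) := by
  subst hX h0 h1
  exact ⟨s, hs, i, (R.x i).symm⟩

/-- the core variables occur in seeds -/
theorem core_mem {pos : F → Prop} (hp : PosCone pos) (ha : pos a) (hb : pos b) (ht : pos t)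
    {c : Fin 2 → F} (hx : pos (c 0)) (hy : pos (c 1)) {s₀ : CB.Seed 3 2 F}
    (R : Rel c s₀ (H0 a b t (c 0) (c 1))) (i : Fin 9) :
    ∃ s, CB.Reach s₀ s ∧ ∃ k, E a b t (c 0) (c 1) i = s.x (Sum.inl k) := by
  have hc : ∀ a, c a ≠ 0 := by intro a; fin_cases a; exacts [hp.ne hx, hp.ne hy]
  have hB := base0 hp ha hb ht hx hy
  have I := H0_inv hp ha hb ht hx hy
  have hd0 : ∀ l, (H0 a b t (c 0) (c 1)).B l l = 0 := I.diag up0 hB
  have r1 := R.mut hc hd0 1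
  have s1 : Sh1 (P0 a b t (c 0) (c 1)) ((H0 a b t (c 0) (c 1)).mut 1) 0 1 2 :=
    Sh5.mi hB.ok H0_shape
  have r10 := r1.mut hc s1.diag 0
  have s10 : Sh2 (P0 a b t (c 0) (c 1)) (((H0 a b t (c 0) (c 1)).mut 1).mut 0) 0 1 2 :=
    Sh1.mi hB.ok s1
  have r12 := r1.mut hc s1.diag 2
  have s12 : Sh2 (P0 a b t (c 0) (c 1)).flip.next (((H0 a b t (c 0) (c 1)).mut 1).mut 2) 0 1 2 :=
    s1.flip.mk hB.flip.ok
  have r0 := R.mut hc hd0 0
  have s0 : Sh4 (P0 a b t (c 0) (c 1)) ((H0 a b t (c 0) (c 1)).mut 0) 1 0 2 :=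
    Sh5.mj hB.ok H0_shape
  have r02 := r0.mut hc s0.diag 2
  have s02 : Sh2 (P0 a b t (c 0) (c 1)).next (((H0 a b t (c 0) (c 1)).mut 0).mut 2) 1 0 2 :=
    s0.mk hB.ok
  have r2 := R.mut hc hd0 2
  have s2 := Sh5.mk hB.ok H0_shape
  have h0 := hp.ne ha
  have h1 := hp.ne hb
  have h2 := hp.ne ht
  have h3 := hc 0
  have h4 := hc 1
  have key : ∀ {X Y : F}, Y = X → (∃ s, CB.Reach s₀ s ∧ ∃ k, X = s.x (Sum.inl k)) →
      ∃ s, CB.Reach s₀ s ∧ ∃ k, Y = s.x (Sum.inl k) := by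
    intro X Y h; rw [h]; exact id
  fin_cases i
  · have := mem_of_at .refl R H0_shape.X2 (H0_shape.W2 0) (H0_shape.W2 1)
    refine key ?_ this
    simp [E, P0]; field_simp
  · have := mem_of_at .refl R H0_shape.X1 (H0_shape.W1 0) (H0_shape.W1 1)
    refine key ?_ this
    simp [E, P0]; field_simp
  · have := mem_of_at .refl R H0_shape.X3 (H0_shape.W3 0) (H0_shape.W3 1)
    refine key ?_ this
    simp [E, P0]; field_simp
  · have := mem_of_at (.step _ _ (.step _ _ .refl)) r10 s10.X1 (s10.W1 0) (s10.W1 1)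
    refine key ?_ this
    simp [E, P0]; field_simp
  · have := mem_of_at (.step _ _ .refl) r1 s1.X2 (s1.W2 0) (s1.W2 1)
    refine key ?_ this
    simp [E, P0, Pent.wS]; field_simp
  · have := mem_of_at (.step _ _ .refl) r0 s0.X2 (s0.W2 0) (s0.W2 1)
    refine key ?_ this
    simp [E, P0, Pent.wT]; field_simp
  · have := mem_of_at (.step _ _ (.step _ _ .refl)) r12 s12.X3 (s12.W3 0) (s12.W3 1)
    refine key ?_ this
    simp [E, P0, Pent.next, Pent.flip]; field_simp; ring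
  · have := mem_of_at (.step _ _ (.step _ _ .refl)) r02 s02.X3 (s02.W3 0) (s02.W3 1)
    refine key ?_ this
    simp [E, P0, Pent.next, Pent.flip]; field_simp; ring
  · have := mem_of_at (.step _ _ .refl) r2 s2.X3 (s2.W3 0) (s2.W3 1)
    refine key ?_ this
    simp [E, P0, Pent.next, Pent.flip]; field_simp

end Pool.Agent.Y945.SP
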